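import Mathlib

/-!
# Relations between quotients of polynomials
-/

set_option autoImplicit false

namespace Pool.Agent.Zk44.XO

open MvPolynomial

/-- More than `m` quotients of polynomials in `m` variables satisfy a relation, which holds at all points
at which the denominator does not vanish. -/
theorem exists_dep {C : Type} [Field C] {σ : Type} [Fintype σ] {n : ℕ} (hn : Fintype.card σ < n)
    (q : MvPolynomial σ C) (hq : q ≠ 0) (P : ℕ → MvPolynomial σ C) (k : ℕ → ℕ) :
    ∃ F : MvPolynomial ℕ C, F ≠ 0 ∧ F ∈ supported C {i : ℕ | i < n} ∧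
      ∀ (x : σ → C) (v : ℕ → C), eval x q ≠ 0 →
        (∀ j < n, eval x q ^ k j * v j = eval x (P j)) → eval v F = 0 := by
  classical
  let S := Localization.Away q
  have hdom : IsDomain S := Localization.Away.isDomain hq
  have hinj : Function.Injective (algebraMap (MvPolynomial σ C) S) :=
    IsLocalization.injective S (powers_le_nonZeroDivisors_of_noZeroDivisors hq)
  have hfaith : FaithfulSMul (MvPolynomial σ C) S :=
    (faithfulSMul_iff_algebraMap_injective _ _).2 hinj
  let iv : S := IsLocalization.Away.invSelf q
  have hiv : algebraMap (MvPolynomial σ C) S q * iv = 1 := IsLocalization.Away.mul_invSelf q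
  let y : Fin n → S := fun j => algebraMap _ S (P j) * iv ^ k j
  have halg : Algebra.IsAlgebraic (MvPolynomial σ C) S := ⟨fun z => by
    obtain ⟨m, a, h⟩ := IsLocalization.Away.surj q z
    refine ⟨Polynomial.C (q ^ m) * Polynomial.X - Polynomial.C a, ?_, ?_⟩
    · intro h0
      have h1 := congrArg (fun p => Polynomial.coeff p 1) h0
      simp only [Polynomial.coeff_sub, Polynomial.coeff_C_mul, Polynomial.coeff_X_one, mul_one,
        Polynomial.coeff_zero] at h1
      rw [Polynomial.coeff_C_succ, sub_zero] at h1
      exact pow_ne_zero _ hq h1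
    · rw [map_sub, map_mul, Polynomial.aeval_C, Polynomial.aeval_C, Polynomial.aeval_X, map_pow,
        ← h, mul_comm, sub_self]⟩
  have htr : Algebra.trdeg C S = Fintype.card σ := by
    have h1 := _root_.trdeg_add_eq (R := C) (S := MvPolynomial σ C) (A := S)
    rw [_root_.trdeg_eq_zero (R := MvPolynomial σ C) (A := S), add_zero,
      MvPolynomial.trdeg_of_isDomain, Cardinal.mk_fintype, Cardinal.lift_natCast] at h1
    exact h1.symm
  have hnot : ¬ AlgebraicIndependent C y := by
    intro h
    have h1 := h.cardinalMk_le_trdeg
    rw [htr, Cardinal.mk_fintype, Fintype.card_fin, Nat.cast_le] at h1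
    omega
  rw [algebraicIndependent_iff] at hnot
  push Not at hnot
  obtain ⟨p, hp, hp0⟩ := hnot
  refine ⟨rename (fun j : Fin n => (j : ℕ)) p, ?_, ?_, ?_⟩
  · intro h0
    exact hp0 (rename_injective _ Fin.val_injective (by rw [h0, map_zero]))
  · have h1 : ∀ p : MvPolynomial (Fin n) C, rename (fun j : Fin n => (j : ℕ)) p ∈
        supported C {i : ℕ | i < n} := by
      intro p
      induction p using MvPolynomial.induction_on with
      | C a => rw [rename_C]; exact Subalgebra.algebraMap_mem _ a
      | add p q hp hq => rw [map_add]; exact Subalgebra.add_mem _ hp hq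
      | mul_X p i hp =>
        rw [map_mul, rename_X]
        exact Subalgebra.mul_mem _ hp (X_mem_supported.2 i.2)
    exact h1 p
  · intro x v hx hv
    have hu : IsUnit ((eval x : MvPolynomial σ C →+* C) q) := hx.isUnit
    let φ : S →+* C := IsLocalization.Away.lift q hu
    have hφ : ∀ a, φ (algebraMap _ S a) = eval x a := fun a => IsLocalization.Away.lift_eq q hu a
    have hφi : eval x q * φ iv = 1 := by
      rw [← hφ, ← map_mul, hiv, map_one]
    have hφy : ∀ j : Fin n, φ (y j) = v j := by
      intro j
      have h1 := hv j j.2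
      have h2 : φ (y j) = eval x (P j) * φ iv ^ k j := by
        simp only [y]
        rw [map_mul, map_pow, hφ]
      rw [h2, ← h1]
      calc eval x q ^ k j * v j * φ iv ^ k j = (eval x q * φ iv) ^ k j * v j := by
            rw [mul_pow]; ring
        _ = v j := by rw [hφi, one_pow, one_mul]
    have h3 := congrArg φ hp
    rw [map_zero, map_aeval] at h3
    have h4 : φ.comp (algebraMap C S) = RingHom.id C := by
      ext a
      rw [RingHom.comp_apply, IsScalarTower.algebraMap_apply C (MvPolynomial σ C) S, hφ]
      simp
    rw [h4] at h3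
    rw [eval_rename]
    have h5 : (v ∘ fun j : Fin n => (j : ℕ)) = fun j => φ (y j) := by
      funext j
      exact (hφy j).symm
    rw [h5]
    exact h3

end Pool.Agent.Zk44.XO
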