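import Mathlib
import Pool.Agent.Zk44.XO.Dep
import Pool.Agent.Zk44.GE.DPoly

/-!
# Elimination: the points of a vector field whose constants vary satisfy one differential equation
-/

set_option autoImplicit false

namespace Pool.Agent.Zk44.XO

open MvPolynomial
open Pool.Agent.R351
open Pool.Agent.Zk44.GE.Ode (ev)

section Chain

variable {κ C : Type} [Field κ] [Field C] [Algebra κ C] {σ : Type} [Fintype σ]

/-- the derivation on the coefficients -/
noncomputable def cdm (Δ : Derivation κ C C) (p : MvPolynomial σ C) : MvPolynomial σ C :=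
  ∑ m ∈ p.support, monomial m (Δ (p.coeff m))

theorem coeff_cdm (Δ : Derivation κ C C) (p : MvPolynomial σ C) (m : σ →₀ ℕ) :
    (cdm Δ p).coeff m = Δ (p.coeff m) := by
  classical
  unfold cdm
  rw [coeff_sum]
  simp only [coeff_monomial]
  rw [Finset.sum_ite_eq']
  split_ifs with h
  · rfl
  · rw [notMem_support_iff.1 h, map_zero]

theorem cdm_add (Δ : Derivation κ C C) (p q : MvPolynomial σ C) :
    cdm Δ (p + q) = cdm Δ p + cdm Δ q := by
  ext m
  rw [coeff_add, coeff_cdm, coeff_cdm, coeff_cdm, coeff_add, map_add]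

theorem cdm_C (Δ : Derivation κ C C) (a : C) :
    cdm Δ (MvPolynomial.C a : MvPolynomial σ C) = MvPolynomial.C (Δ a) := by
  classical
  ext m
  rw [coeff_cdm, coeff_C, coeff_C]
  split_ifs
  · rfl
  · rw [map_zero]

theorem cdm_mul_X (Δ : Derivation κ C C) (p : MvPolynomial σ C) (i : σ) :
    cdm Δ (p * X i) = cdm Δ p * X i := by
  classical
  ext m
  rw [coeff_cdm, coeff_mul_X', coeff_mul_X']
  split_ifs
  · rw [coeff_cdm]
  · rw [map_zero]

/-- the chain rule -/
theorem chain (Δ : Derivation κ C C) (x : σ → C) (f : MvPolynomial σ C) :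
    Δ (eval x f) = eval x (cdm Δ f) + ∑ i, eval x (pderiv i f) * Δ (x i) := by
  classical
  induction f using MvPolynomial.induction_on with
  | C a => simp [cdm_C]
  | add p q hp hq =>
    rw [map_add, map_add, hp, hq, cdm_add, map_add]
    simp only [map_add, add_mul, Finset.sum_add_distrib]
    ring
  | mul_X p j hp =>
    have e1 : eval x (p * X j) = eval x p * x j := by rw [map_mul, eval_X]
    have e2 : eval x (cdm Δ p * X j) = eval x (cdm Δ p) * x j := by rw [map_mul, eval_X]
    rw [cdm_mul_X, e1, e2, Derivation.leibniz, hp]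
    have h1 : ∀ i, eval x (pderiv i (p * X j)) * Δ (x i) =
        x j * (eval x (pderiv i p) * Δ (x i)) + if i = j then eval x p * Δ (x j) else 0 := by
      intro i
      rw [Derivation.leibniz, map_add, smul_eq_mul, smul_eq_mul, map_mul, map_mul, eval_X,
        pderiv_X]
      by_cases h : i = j
      · subst h
        simp
        ring
      · simp [h, Pi.single_apply, Ne.symm h]
        ring
    simp only [h1]
    rw [Finset.sum_add_distrib, ← Finset.mul_sum, Finset.sum_ite_eq' Finset.univ j]
    simp only [Finset.mem_univ, if_true, smul_eq_mul]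
    ring

variable (VA VB : σ → MvPolynomial σ C)

/-- the derivative along the first vector field -/
noncomputable def DA (f : MvPolynomial σ C) : MvPolynomial σ C := ∑ i, pderiv i f * VA i

/-- the derivative along the second vector field, and of the coefficients -/
noncomputable def DB (Δ : Derivation κ C C) (f : MvPolynomial σ C) : MvPolynomial σ C :=
  cdm Δ f + ∑ i, pderiv i f * VB i

/-- The point `x` moves along the two vector fields. -/
def Pt (Δ : Derivation κ C C) (x : σ → C) (s : C) : Prop :=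
  ∀ i, Δ (x i) = s * eval x (VA i) + eval x (VB i)

variable {VA VB}

theorem Pt.deriv {Δ : Derivation κ C C} {x : σ → C} {s : C} (h : Pt VA VB Δ x s)
    (f : MvPolynomial σ C) : Δ (eval x f) = s * eval x (DA VA f) + eval x (DB VB Δ f) := by
  rw [chain]
  unfold DA DB
  simp only [map_add, map_sum, map_mul, h _, mul_add, Finset.sum_add_distrib, Finset.mul_sum]
  have h1 : ∀ i, eval x (pderiv i f) * (s * eval x (VA i)) =
      s * (eval x (pderiv i f) * eval x (VA i)) := fun i => by ring
  simp only [h1]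
  ring

/-- The derivatives are quotients of polynomials. -/
theorem jets_quot (Δ : Derivation κ C C) (f N₀ : MvPolynomial σ C) (k₀ : ℕ) :
    ∃ (N : ℕ → MvPolynomial σ C) (k : ℕ → ℕ), ∀ (x : σ → C) (s : C), Pt VA VB Δ x s →
      eval x f = 0 → eval x (DA VA f) ≠ 0 → ∀ v : C, eval x (DA VA f) ^ k₀ * v = eval x N₀ →
      ∀ j, eval x (DA VA f) ^ k j * dit Δ j v = eval x (N j) := by
  classical
  set q := DA VA f with hq
  let 𝒟 : MvPolynomial σ C → MvPolynomial σ C := fun g => q * DB VB Δ g - DB VB Δ f * DA VA g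
  let step : MvPolynomial σ C × ℕ → MvPolynomial σ C × ℕ := fun p =>
    (q * 𝒟 p.1 - (p.2 : MvPolynomial σ C) * 𝒟 q * p.1, p.2 + 2)
  let seq : ℕ → MvPolynomial σ C × ℕ := fun j => step^[j] (N₀, k₀)
  refine ⟨fun j => (seq j).1, fun j => (seq j).2, fun x s hx hf hqx v hv j => ?_⟩
  have hD : ∀ g, eval x q * Δ (eval x g) = eval x (𝒟 g) := by
    intro g
    have h1 := hx.deriv f
    rw [hf, map_zero, ← hq] at h1
    have h2 := hx.deriv g
    simp only [𝒟, map_sub, map_mul]
    rw [h2]
    linear_combination (eval x (DA VA g)) * (-h1)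
  induction j with
  | zero =>
    show eval x q ^ k₀ * dit Δ 0 v = eval x N₀
    rw [dit_zero]
    exact hv
  | succ j ih =>
    have h1 : seq (j + 1) = step (seq j) := Function.iterate_succ_apply' step j (N₀, k₀)
    show eval x q ^ (seq (j + 1)).2 * dit Δ (j + 1) v = eval x (seq (j + 1)).1
    have ih : eval x q ^ (seq j).2 * dit Δ j v = eval x (seq j).1 := ih
    rw [h1]
    simp only [step, map_sub, map_mul, map_natCast]
    rw [dit_succ]
    set k := (seq j).2 with hk
    set n := (seq j).1 with hn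
    set w := dit Δ j v with hw
    have h2 : Δ (eval x q ^ k * w) = Δ (eval x n) := by rw [ih]
    rw [Derivation.leibniz, Derivation.leibniz_pow] at h2
    have h3 := hD n
    have h4 := hD q
    rw [← h3, ← h4, ← h2, ← ih]
    simp only [smul_eq_mul, nsmul_eq_mul]
    rcases Nat.eq_zero_or_pos k with h0 | h0
    · rw [h0]
      simp
      ring
    · obtain ⟨k', hk'⟩ : ∃ k', k = k' + 1 := ⟨k - 1, by omega⟩
      rw [hk']
      simp only [Nat.add_sub_cancel]
      push_cast
      ring

/-- **Elimination.** The points at which `G₀` vanishes, but not together with all its derivatives along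
the first vector field, satisfy one differential equation in which fewer than `n` derivatives occur, where
`n` is larger than the number of the coordinates. -/
theorem elim {n : ℕ} (hn : Fintype.card σ < n) (Δ : Derivation κ C C) (G₀ : MvPolynomial σ C)
    (R : (σ → C) → C → C → Prop) (hPt : ∀ x s v, R x s v → Pt VA VB Δ x s)
    (hT : ∀ f : MvPolynomial σ C, ∃ (k₀ : ℕ) (N₀ : MvPolynomial σ C), ∀ x s v, R x s v →
      eval x f = 0 → eval x (DA VA f) ^ k₀ * v = eval x N₀)
    (hG : ∀ x s v, R x s v → eval x G₀ = 0)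
    (hV : ∀ x s v, R x s v → ∀ I : Ideal (MvPolynomial σ C), (∀ f ∈ I, DA VA f ∈ I) →
      (∀ f ∈ I, eval x f = 0) → G₀ ∉ I) :
    ∃ F : MvPolynomial ℕ C, F ≠ 0 ∧ F ∈ supported C {i : ℕ | i < n} ∧
      ∀ x s v, R x s v → ev Δ v F = 0 := by
  classical
  have key : ∀ I : Ideal (MvPolynomial σ C), ∃ F : MvPolynomial ℕ C, F ≠ 0 ∧
      F ∈ supported C {i : ℕ | i < n} ∧
      ∀ x s v, R x s v → (∀ f ∈ I, eval x f = 0) → ev Δ v F = 0 := by
    intro I
    induction I using IsNoetherian.induction with
    | hgt I ih =>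
      have hsup : ∀ q : MvPolynomial σ C, q ∉ I → ∃ F : MvPolynomial ℕ C, F ≠ 0 ∧
          F ∈ supported C {i : ℕ | i < n} ∧ ∀ x s v, R x s v → (∀ f ∈ I, eval x f = 0) →
          eval x q = 0 → ev Δ v F = 0 := by
        intro q hq
        have hlt : I < I ⊔ Ideal.span {q} := by
          refine lt_of_le_of_ne le_sup_left fun h => hq ?_
          rw [h]
          exact Ideal.mem_sup_right (Ideal.mem_span_singleton_self q)
        obtain ⟨F, hF0, hF1, hF2⟩ := ih _ hlt
        refine ⟨F, hF0, hF1, fun x s v hR hI hqx => hF2 x s v hR fun f hf => ?_⟩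
        obtain ⟨a, ha, b, hb, rfl⟩ := Submodule.mem_sup.1 hf
        obtain ⟨c, rfl⟩ := Ideal.mem_span_singleton'.1 hb
        rw [map_add, hI a ha, map_mul, hqx, mul_zero, add_zero]
      by_cases hst : ∀ f ∈ I, DA VA f ∈ I
      · by_cases hGI : G₀ ∈ I
        · refine ⟨1, one_ne_zero, Subalgebra.one_mem _, fun x s v hR hI => ?_⟩
          exact absurd hGI (hV x s v hR I hst hI)
        · obtain ⟨F, hF0, hF1, hF2⟩ := hsup G₀ hGI
          exact ⟨F, hF0, hF1, fun x s v hR hI => hF2 x s v hR hI (hG x s v hR)⟩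
      · push Not at hst
        obtain ⟨f, hf, hfI⟩ := hst
        have hq0 : DA VA f ≠ 0 := by
          intro h0
          rw [h0] at hfI
          exact hfI I.zero_mem
        obtain ⟨k₀, N₀, hN₀⟩ := hT f
        obtain ⟨N, k, hN⟩ := jets_quot (VA := VA) (VB := VB) Δ f N₀ k₀
        obtain ⟨F₁, h10, h11, h12⟩ := exists_dep hn (DA VA f) hq0 N k
        obtain ⟨F₂, h20, h21, h22⟩ := hsup _ hfI
        refine ⟨F₁ * F₂, mul_ne_zero h10 h20, Subalgebra.mul_mem _ h11 h21, fun x s v hR hI => ?_⟩
        rw [map_mul]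
        by_cases hqx : eval x (DA VA f) = 0
        · rw [h22 x s v hR hI hqx, mul_zero]
        · have h1 := h12 x (fun j => dit Δ j v) hqx fun j _ =>
            hN x s (hPt x s v hR) (hI f hf) hqx v (hN₀ x s v hR (hI f hf)) j
          have h2 : ev Δ v F₁ = 0 := h1
          rw [h2, zero_mul]
  obtain ⟨F, hF0, hF1, hF2⟩ := key ⊥
  refine ⟨F, hF0, hF1, fun x s v hR => hF2 x s v hR fun f hf => ?_⟩
  rw [(Submodule.mem_bot _).1 hf, map_zero]

end Chain

end Pool.Agent.Zk44.XO
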