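import Mathlib
import Pool.Agent.Zk44.XO.Elim

/-!
# The universal computation with few additions
-/

set_option autoImplicit false

namespace Pool.Agent.Zk44.XO

open MvPolynomial

section LG

variable {R : Type*} [CommRing R]

/-- the derivative of `∑ b, E l b`, where `E l b` has the logarithmic derivative
`β l b + ∑ l' < l, h l b l' * Q l' * (derivative at l')` -/
def LG (E : ℕ → Bool → R) (Q : ℕ → R) (h : ℕ → Bool → ℕ → R) (β : ℕ → Bool → R) (l : ℕ) : R :=
  ∑ b : Bool, E l b * (β l b + ∑ l' : Fin l, h l b l' * Q l' * LG E Q h β l')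
termination_by l
decreasing_by exact l'.2

/-- the logarithmic derivative -/
def WD (E : ℕ → Bool → R) (Q : ℕ → R) (h : ℕ → Bool → ℕ → R) (β : ℕ → Bool → R) (l : ℕ) (b : Bool) :
    R :=
  β l b + ∑ l' : Fin l, h l b l' * Q l' * LG E Q h β l'

theorem LG_eq (E : ℕ → Bool → R) (Q : ℕ → R) (h : ℕ → Bool → ℕ → R) (β : ℕ → Bool → R) (l : ℕ) :
    LG E Q h β l = ∑ b : Bool, E l b * WD E Q h β l b := by
  rw [LG]
  rfl

theorem LG_lin (E : ℕ → Bool → R) (Q : ℕ → R) (h : ℕ → Bool → ℕ → R) (β₁ β₂ : ℕ → Bool → R) (s : R)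
    (l : ℕ) : LG E Q h (fun l b => s * β₁ l b + β₂ l b) l =
      s * LG E Q h β₁ l + LG E Q h β₂ l := by
  induction l using Nat.strong_induction_on with
  | _ l ih =>
    rw [LG, LG, LG, Finset.mul_sum, ← Finset.sum_add_distrib]
    refine Finset.sum_congr rfl fun b _ => ?_
    have h1 : ∑ l' : Fin l, h l b l' * Q l' * LG E Q h (fun l b => s * β₁ l b + β₂ l b) l' =
        s * (∑ l' : Fin l, h l b l' * Q l' * LG E Q h β₁ l') +
          ∑ l' : Fin l, h l b l' * Q l' * LG E Q h β₂ l' := by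
      rw [Finset.mul_sum, ← Finset.sum_add_distrib]
      refine Finset.sum_congr rfl fun l' _ => ?_
      rw [ih l' l'.2]
      ring
    rw [h1]
    ring

theorem WD_lin (E : ℕ → Bool → R) (Q : ℕ → R) (h : ℕ → Bool → ℕ → R) (β₁ β₂ : ℕ → Bool → R) (s : R)
    (l : ℕ) (b : Bool) : WD E Q h (fun l b => s * β₁ l b + β₂ l b) l b =
      s * WD E Q h β₁ l b + WD E Q h β₂ l b := by
  unfold WD
  have h1 : ∑ l' : Fin l, h l b l' * Q l' * LG E Q h (fun l b => s * β₁ l b + β₂ l b) l' =
      s * (∑ l' : Fin l, h l b l' * Q l' * LG E Q h β₁ l') +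
        ∑ l' : Fin l, h l b l' * Q l' * LG E Q h β₂ l' := by
    rw [Finset.mul_sum, ← Finset.sum_add_distrib]
    refine Finset.sum_congr rfl fun l' _ => ?_
    rw [LG_lin]
    ring
  rw [h1]
  ring

theorem LG_map {R' : Type*} [CommRing R'] (f : R →+* R') (E : ℕ → Bool → R) (Q : ℕ → R)
    (h : ℕ → Bool → ℕ → R) (β : ℕ → Bool → R) (l : ℕ) :
    f (LG E Q h β l) = LG (fun l b => f (E l b)) (fun l => f (Q l)) (fun l b l' => f (h l b l'))
      (fun l b => f (β l b)) l := by
  induction l using Nat.strong_induction_on with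
  | _ l ih =>
    rw [LG, LG, map_sum]
    refine Finset.sum_congr rfl fun b _ => ?_
    rw [map_mul, map_add, map_sum]
    congr 2
    refine Finset.sum_congr rfl fun l' _ => ?_
    rw [map_mul, map_mul, ih l' l'.2]

theorem WD_map {R' : Type*} [CommRing R'] (f : R →+* R') (E : ℕ → Bool → R) (Q : ℕ → R)
    (h : ℕ → Bool → ℕ → R) (β : ℕ → Bool → R) (l : ℕ) (b : Bool) :
    f (WD E Q h β l b) = WD (fun l b => f (E l b)) (fun l => f (Q l)) (fun l b l' => f (h l b l'))
      (fun l b => f (β l b)) l b := by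
  unfold WD
  rw [map_add, map_sum]
  congr 1
  refine Finset.sum_congr rfl fun l' _ => ?_
  rw [map_mul, map_mul, LG_map]

/-- the derivatives in an actual computation -/
theorem LG_deriv {κ : Type*} [CommRing κ] [Algebra κ R] (δ : Derivation κ R R)
    {E : ℕ → Bool → R} {Q : ℕ → R} {h : ℕ → Bool → ℕ → R} {β : ℕ → Bool → R} {G : ℕ → R} {m : ℕ}
    (hG : ∀ l < m, G l = ∑ b : Bool, E l b)
    (hE : ∀ l < m, ∀ b, δ (E l b) = E l b * (β l b + ∑ l' : Fin l, h l b l' * Q l' * δ (G l'))) :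
    ∀ l < m, δ (G l) = LG E Q h β l := by
  intro l
  induction l using Nat.strong_induction_on with
  | _ l ih =>
    intro hl
    rw [hG l hl, map_sum, LG]
    refine Finset.sum_congr rfl fun b _ => ?_
    rw [hE l hl b]
    congr 2
    refine Finset.sum_congr rfl fun l' _ => ?_
    rw [ih l' l'.2 (l'.2.trans hl)]

end LG

section Points

/-- The coordinates of a computation with `m` additions: the number `Y`; the exponents and the inverses;
the summands, the exponents of `Y`, the constants and the exponents of the parameters. -/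
abbrev Idx (g m : ℕ) : Type := Unit ⊕ ((Fin m × Fin m) ⊕ (Fin m × Bool × (Fin 3 ⊕ Fin g)))

theorem card_Idx (g m : ℕ) : Fintype.card (Idx g m) = 1 + (m * m + m * (2 * (3 + g))) := by
  simp [Idx]

variable {R : Type*} [CommRing R] {g m : ℕ}

def tE (x : Idx g m → R) (l : ℕ) (b : Bool) : R :=
  if h : l < m then x (Sum.inr (Sum.inr (⟨l, h⟩, b, Sum.inl 0))) else 0

def ta (x : Idx g m → R) (l : ℕ) (b : Bool) : R :=
  if h : l < m then x (Sum.inr (Sum.inr (⟨l, h⟩, b, Sum.inl 1))) else 0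

def tw (x : Idx g m → R) (l : ℕ) (b : Bool) : R :=
  if h : l < m then x (Sum.inr (Sum.inr (⟨l, h⟩, b, Sum.inl 2))) else 0

def tu (x : Idx g m → R) (l : ℕ) (b : Bool) (o : Fin g) : R :=
  if h : l < m then x (Sum.inr (Sum.inr (⟨l, h⟩, b, Sum.inr o))) else 0

def tQ (x : Idx g m → R) (l : ℕ) : R :=
  if h : l < m then x (Sum.inr (Sum.inl (⟨l, h⟩, ⟨l, h⟩))) else 0

def tH (x : Idx g m → R) (l : ℕ) (b : Bool) (l' : ℕ) : R :=
  if h : l < m ∧ l' < m then
    x (Sum.inr (Sum.inl (if b then (⟨l', h.2⟩, ⟨l, h.1⟩) else (⟨l, h.1⟩, ⟨l', h.2⟩)))) else 0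

/-- the vector field -/
def VF (x : Idx g m → R) (s : R) (β : ℕ → Bool → R) : Idx g m → R
  | Sum.inl _ => s * x (Sum.inl ())
  | Sum.inr (Sum.inl (i, j)) =>
      if i = j then -(tQ x i) ^ 2 * LG (tE x) (tQ x) (tH x) β i else 0
  | Sum.inr (Sum.inr (l, b, Sum.inl k)) =>
      if k = 0 then tE x l b * WD (tE x) (tQ x) (tH x) β l b else 0
  | Sum.inr (Sum.inr (_, _, Sum.inr _)) => 0

theorem VF_lin (x : Idx g m → R) (s : R) (β₁ β₂ : ℕ → Bool → R) (i : Idx g m) :
    VF x s (fun l b => s * β₁ l b + β₂ l b) i = s * VF x 1 β₁ i + VF x 0 β₂ i := by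
  rcases i with _ | ⟨i, j⟩ | ⟨l, b, k | o⟩
  · simp only [VF]
    ring
  · simp only [VF]
    split_ifs
    · rw [LG_lin]
      ring
    · ring
  · simp only [VF]
    split_ifs
    · rw [WD_lin]
      ring
    · ring
  · simp only [VF]
    ring

variable {R' : Type*} [CommRing R'] (f : R →+* R')

theorem tE_map (x : Idx g m → R) (l : ℕ) (b : Bool) : f (tE x l b) = tE (fun i => f (x i)) l b := by
  unfold tE
  split_ifs
  · rfl
  · exact map_zero f

theorem ta_map (x : Idx g m → R) (l : ℕ) (b : Bool) : f (ta x l b) = ta (fun i => f (x i)) l b := by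
  unfold ta
  split_ifs
  · rfl
  · exact map_zero f

theorem tw_map (x : Idx g m → R) (l : ℕ) (b : Bool) : f (tw x l b) = tw (fun i => f (x i)) l b := by
  unfold tw
  split_ifs
  · rfl
  · exact map_zero f

theorem tu_map (x : Idx g m → R) (l : ℕ) (b : Bool) (o : Fin g) :
    f (tu x l b o) = tu (fun i => f (x i)) l b o := by
  unfold tu
  split_ifs
  · rfl
  · exact map_zero f

theorem tQ_map (x : Idx g m → R) (l : ℕ) : f (tQ x l) = tQ (fun i => f (x i)) l := by
  unfold tQ
  split_ifs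
  · rfl
  · exact map_zero f

theorem tH_map (x : Idx g m → R) (l : ℕ) (b : Bool) (l' : ℕ) :
    f (tH x l b l') = tH (fun i => f (x i)) l b l' := by
  unfold tH
  by_cases h : l < m ∧ l' < m
  · rw [dif_pos h, dif_pos h]
  · rw [dif_neg h, dif_neg h, map_zero]

theorem VF_map (x : Idx g m → R) (s : R) (β : ℕ → Bool → R) (i : Idx g m) :
    f (VF x s β i) = VF (fun i => f (x i)) (f s) (fun l b => f (β l b)) i := by
  have h1 : (fun l b => f (tE x l b)) = tE (fun i => f (x i)) := by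
    funext l b; exact tE_map f x l b
  have h2 : (fun l => f (tQ x l)) = tQ (fun i => f (x i)) := by
    funext l; exact tQ_map f x l
  have h3 : (fun l b l' => f (tH x l b l')) = tH (fun i => f (x i)) := by
    funext l b l'; exact tH_map f x l b l'
  rcases i with _ | ⟨i, j⟩ | ⟨l, b, k | o⟩
  · simp only [VF, map_mul]
  · simp only [VF]
    split_ifs
    · rw [map_mul, map_neg, map_pow, tQ_map, LG_map, h1, h2, h3]
    · exact map_zero f
  · simp only [VF]
    split_ifs
    · rw [map_mul, tE_map, WD_map, h1, h2, h3]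
    · exact map_zero f
  · simp only [VF, map_zero]

/-- the point of a computation -/
def mkPt (g m : ℕ) (Y : R) (E : ℕ → Bool → R) (Q : ℕ → R) (a w : ℕ → Bool → R)
    (u : ℕ → Bool → Fin g → R) (h : ℕ → Bool → ℕ → R) : Idx g m → R
  | Sum.inl _ => Y
  | Sum.inr (Sum.inl (i, j)) =>
      if i = j then Q i else if j < i then h i false j else h j true i
  | Sum.inr (Sum.inr (l, b, Sum.inl k)) =>
      if k = 0 then E l b else if k = 1 then a l b else w l b
  | Sum.inr (Sum.inr (l, b, Sum.inr o)) => u l b o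

section Mk

variable {Y : R} {E : ℕ → Bool → R} {Q : ℕ → R} {a w : ℕ → Bool → R} {u : ℕ → Bool → Fin g → R}
  {h : ℕ → Bool → ℕ → R}

theorem tE_mk {l : ℕ} (hl : l < m) (b : Bool) : tE (mkPt g m Y E Q a w u h) l b = E l b := by
  unfold tE
  rw [dif_pos hl]
  simp [mkPt]

theorem ta_mk {l : ℕ} (hl : l < m) (b : Bool) : ta (mkPt g m Y E Q a w u h) l b = a l b := by
  unfold ta
  rw [dif_pos hl]
  simp [mkPt]

theorem tw_mk {l : ℕ} (hl : l < m) (b : Bool) : tw (mkPt g m Y E Q a w u h) l b = w l b := by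
  unfold tw
  rw [dif_pos hl]
  simp [mkPt]

theorem tu_mk {l : ℕ} (hl : l < m) (b : Bool) (o : Fin g) :
    tu (mkPt g m Y E Q a w u h) l b o = u l b o := by
  unfold tu
  rw [dif_pos hl]
  simp [mkPt]

theorem tQ_mk {l : ℕ} (hl : l < m) : tQ (mkPt g m Y E Q a w u h) l = Q l := by
  unfold tQ
  rw [dif_pos hl]
  simp [mkPt]

theorem tH_mk {l l' : ℕ} (hl : l < m) (hl' : l' < l) (b : Bool) :
    tH (mkPt g m Y E Q a w u h) l b l' = h l b l' := by
  unfold tH
  rw [dif_pos ⟨hl, hl'.trans hl⟩]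
  cases b
  · have h1 : ¬ ((⟨l, hl⟩ : Fin m) = ⟨l', hl'.trans hl⟩) := by
      intro h
      have := congrArg Fin.val h
      simp only at this
      omega
    simp [mkPt, h1, hl']
  · have h1 : ¬ ((⟨l', hl'.trans hl⟩ : Fin m) = ⟨l, hl⟩) := by
      intro h
      have := congrArg Fin.val h
      simp only at this
      omega
    have h2 : ¬ (l < l') := by omega
    simp [mkPt, h1, h2]

end Mk

end Points

end Pool.Agent.Zk44.XO
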