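import Mathlib
import Pool.Agent.Zk44.XO.Tower

/-!
# Actual computations are integral curves
-/

set_option autoImplicit false

namespace Pool.Agent.Zk44.XO

open MvPolynomial

section Log

variable {κ R : Type*} [CommRing κ] [CommRing R] [Algebra κ R] {δ : Derivation κ R R}

/-- `d` is a logarithmic derivative of `z`. -/
def LogD (δ : Derivation κ R R) (z d : R) : Prop := δ z = z * d

theorem LogD.mul {z z' d d' : R} (h : LogD δ z d) (h' : LogD δ z' d') :
    LogD δ (z * z') (d + d') := by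
  unfold LogD at *
  rw [Derivation.leibniz, h, h']
  simp only [smul_eq_mul]
  ring

theorem LogD.one : LogD δ 1 0 := by
  unfold LogD
  rw [Derivation.map_one_eq_zero, mul_zero]

theorem LogD.zero (d : R) : LogD δ 0 d := by
  unfold LogD
  rw [map_zero, zero_mul]

theorem LogD.pow {z d : R} (h : LogD δ z d) (n : ℕ) : LogD δ (z ^ n) (n * d) := by
  induction n with
  | zero =>
    rw [pow_zero, Nat.cast_zero, zero_mul]
    exact LogD.one
  | succ n ih =>
    rw [pow_succ, Nat.cast_succ, add_mul, one_mul]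
    exact ih.mul h

theorem LogD.prod {ι : Type*} (s : Finset ι) (z d : ι → R) (h : ∀ i ∈ s, LogD δ (z i) (d i)) :
    LogD δ (∏ i ∈ s, z i) (∑ i ∈ s, d i) := by
  classical
  induction s using Finset.induction_on with
  | empty =>
    rw [Finset.prod_empty, Finset.sum_empty]
    exact LogD.one
  | insert a s ha ih =>
    rw [Finset.prod_insert ha, Finset.sum_insert ha]
    exact (h a (Finset.mem_insert_self _ _)).mul (ih fun i hi => h i (Finset.mem_insert_of_mem hi))

theorem LogD.smul {z d : R} (h : LogD δ z d) (c : κ) : LogD δ (c • z) d := by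
  unfold LogD at *
  rw [Derivation.map_smul, h, smul_mul_assoc]

theorem LogD.of_inv {G Q : R} (h : Q * G = 1 ∨ G = 0) : LogD δ G (Q * δ G) := by
  rcases h with h | h
  · unfold LogD
    rw [← mul_assoc, mul_comm G Q, h, one_mul]
  · rw [h]
    exact LogD.zero _

theorem deriv_inv {G Q : R} (h : Q * G = 1 ∨ Q = 0) : δ Q = -Q ^ 2 * δ G := by
  rcases h with h | h
  · have h1 : δ (Q * G) = 0 := by rw [h, Derivation.map_one_eq_zero]
    rw [Derivation.leibniz, smul_eq_mul, smul_eq_mul] at h1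
    have h2 : δ Q = (Q * G) * δ Q := by rw [h, one_mul]
    rw [h2]
    linear_combination Q * h1
  · rw [h]
    simp

end Log

section Congr

variable {R : Type*} [CommRing R]

theorem LG_congr {E E' : ℕ → Bool → R} {Q Q' : ℕ → R} {h h' : ℕ → Bool → ℕ → R}
    {β β' : ℕ → Bool → R} {m : ℕ} (hE : ∀ l < m, ∀ b, E l b = E' l b) (hQ : ∀ l < m, Q l = Q' l)
    (hh : ∀ l < m, ∀ b, ∀ l' < l, h l b l' = h' l b l') (hβ : ∀ l < m, ∀ b, β l b = β' l b) :
    ∀ l < m, LG E Q h β l = LG E' Q' h' β' l := by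
  intro l
  induction l using Nat.strong_induction_on with
  | _ l ih =>
    intro hl
    rw [LG, LG]
    refine Finset.sum_congr rfl fun b _ => ?_
    rw [hE l hl b, hβ l hl b]
    congr 2
    refine Finset.sum_congr rfl fun l' _ => ?_
    rw [hh l hl b l' l'.2, hQ l' (l'.2.trans hl), ih l' l'.2 (l'.2.trans hl)]

theorem WD_congr {E E' : ℕ → Bool → R} {Q Q' : ℕ → R} {h h' : ℕ → Bool → ℕ → R}
    {β β' : ℕ → Bool → R} {m : ℕ} (hE : ∀ l < m, ∀ b, E l b = E' l b) (hQ : ∀ l < m, Q l = Q' l)
    (hh : ∀ l < m, ∀ b, ∀ l' < l, h l b l' = h' l b l') (hβ : ∀ l < m, ∀ b, β l b = β' l b)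
    (l : ℕ) (hl : l < m) (b : Bool) : WD E Q h β l b = WD E' Q' h' β' l b := by
  unfold WD
  rw [hβ l hl b]
  congr 1
  refine Finset.sum_congr rfl fun l' _ => ?_
  rw [hh l hl b l' l'.2, hQ l' (l'.2.trans hl),
    LG_congr hE hQ hh hβ l' (l'.2.trans hl)]

end Congr

section Actual

variable {κ R : Type*} [CommRing κ] [CommRing R] [Algebra κ R] (δ : Derivation κ R R) {g m : ℕ}

/-- An actual computation is an integral curve. -/
theorem VF_actual {Y s : R} {E : ℕ → Bool → R} {Q G : ℕ → R} {a w : ℕ → Bool → R}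
    {u : ℕ → Bool → Fin g → R} {h : ℕ → Bool → ℕ → R} {β β' : ℕ → Bool → R}
    (hY : δ Y = s * Y) (ha : ∀ l b, δ (a l b) = 0) (hw : ∀ l b, δ (w l b) = 0)
    (hu : ∀ l b o, δ (u l b o) = 0) (hh : ∀ l b l', δ (h l b l') = 0)
    (hG : ∀ l < m, G l = ∑ b : Bool, E l b)
    (hE : ∀ l < m, ∀ b, δ (E l b) = E l b * (β l b + ∑ l' : Fin l, h l b l' * Q l' * δ (G l')))
    (hQ : ∀ l < m, Q l * G l = 1 ∨ Q l = 0) (hβ : ∀ l < m, ∀ b, β' l b = β l b) :
    ∀ i : Idx g m, δ (mkPt g m Y E Q a w u h i) = VF (mkPt g m Y E Q a w u h) s β' i := by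
  have h1 := LG_deriv δ hG hE
  set x := mkPt g m Y E Q a w u h with hx
  have h2 : ∀ l < m, LG (tE x) (tQ x) (tH x) β' l = LG E Q h β l :=
    LG_congr (fun l hl b => tE_mk hl b) (fun l hl => tQ_mk hl)
      (fun l hl b l' hl' => tH_mk hl hl' b) hβ
  have h3 : ∀ l < m, ∀ b, WD (tE x) (tQ x) (tH x) β' l b = WD E Q h β l b := fun l hl b =>
    WD_congr (fun l hl b => tE_mk hl b) (fun l hl => tQ_mk hl)
      (fun l hl b l' hl' => tH_mk hl hl' b) hβ l hl b
  intro i
  rcases i with _ | ⟨i, j⟩ | ⟨l, b, k | o⟩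
  · exact hY
  · have e1 : x (Sum.inr (Sum.inl (i, j))) =
        if i = j then Q i else if j < i then h i false j else h j true i := rfl
    rw [e1]
    simp only [VF]
    by_cases hij : i = j
    · subst hij
      rw [if_pos rfl, if_pos rfl, h2 i i.2, ← h1 i i.2]
      have h4 : tQ x i = Q i := tQ_mk i.2
      rw [h4]
      exact deriv_inv (hQ i i.2)
    · rw [if_neg hij, if_neg hij]
      split_ifs
      · exact hh _ _ _
      · exact hh _ _ _
  · have e1 : x (Sum.inr (Sum.inr (l, b, Sum.inl k))) =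
        if k = 0 then E l b else if k = 1 then a l b else w l b := rfl
    rw [e1]
    simp only [VF]
    by_cases hk : k = 0
    · rw [if_pos hk, if_pos hk, h3 l l.2 b]
      have h4 : tE x l b = E l b := tE_mk l.2 b
      rw [h4, hE l l.2 b]
      unfold WD
      congr 2
      refine Finset.sum_congr rfl fun l' _ => ?_
      rw [h1 l' (l'.2.trans l.2)]
    · rw [if_neg hk, if_neg hk]
      split_ifs
      · exact ha _ _
      · exact hw _ _
  · exact hu _ _ _

end Actual

section Vector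

variable {C : Type} [Field C] {g m : ℕ}

/-- the first vector field -/
noncomputable def VAu (C : Type) [Field C] (g m : ℕ) : Idx g m → MvPolynomial (Idx g m) C :=
  VF X 1 (ta X)

/-- the second vector field -/
noncomputable def VBu (m : ℕ) (θ : Fin g → C) : Idx g m → MvPolynomial (Idx g m) C :=
  VF X 0 (fun l b => tw X l b + ∑ o, MvPolynomial.C (θ o) * tu X l b o)

theorem eval_VAu {R : Type*} [CommRing R] (f : MvPolynomial (Idx g m) C →+* R) (i : Idx g m) :
    f (VAu C g m i) = VF (fun i => f (X i)) 1 (ta (fun i => f (X i))) i := by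
  unfold VAu
  rw [VF_map, map_one]
  congr 1
  funext l b
  exact ta_map f X l b

theorem eval_VBu (θ : Fin g → C) (x : Idx g m → C) (i : Idx g m) :
    eval x (VBu m θ i) = VF x 0 (fun l b => tw x l b + ∑ o, θ o * tu x l b o) i := by
  unfold VBu
  rw [VF_map (eval x) X 0 _ i, map_zero]
  have h1 : (fun i => eval x (X i : MvPolynomial (Idx g m) C)) = x := by
    funext i
    exact eval_X _
  rw [h1]
  congr 1
  funext l b
  rw [map_add, tw_map, h1, map_sum]
  congr 1
  refine Finset.sum_congr rfl fun o _ => ?_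
  rw [map_mul, eval_C, tu_map, h1]

theorem pt_of_VF {κ : Type} [Field κ] [Algebra κ C] {Δ : Derivation κ C C} {θ : Fin g → C}
    {x : Idx g m → C} {s : C} (h : ∀ i, Δ (x i) =
      VF x s (fun l b => s * ta x l b + (tw x l b + ∑ o, θ o * tu x l b o)) i) :
    Pt (VAu C g m) (VBu m θ) Δ x s := by
  intro i
  rw [h i, VF_lin x s (ta x) (fun l b => tw x l b + ∑ o, θ o * tu x l b o) i, eval_VBu]
  congr 2
  have h1 := eval_VAu (eval x) i
  have h2 : (fun i => eval x (X i : MvPolynomial (Idx g m) C)) = x := by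
    funext i
    exact eval_X _
  rw [h2] at h1
  exact h1.symm

end Vector

end Pool.Agent.Zk44.XO
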