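import Mathlib
import Pool.Agent.Zk44.XO.Log
import Pool.Agent.Zk44.GE.Cube

/-!
# The points of the bad numbers
-/

set_option autoImplicit false

namespace Pool.Agent.Zk44.XO

open MvPolynomial
open Pool.Agent.R351
open Pool.Agent.Zk44.GE (ExpLike)
open Pool.Agent.Zk44.GE.Ode (ev)

section Summands

variable {κ R ι : Type*} [Field κ] [CommRing R] [Algebra κ R] [Fintype ι]

/-- the summands of a computation -/
def Es (B : ι → R) (G : ℕ → R) (c : ℕ → Bool → κ) (e : ℕ → Bool → ι → ℕ) (h : ℕ → Bool → ℕ → ℕ)
    (l : ℕ) (b : Bool) : R :=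
  c l b • ((∏ j, B j ^ e l b j) * ∏ l' ∈ Finset.range l, G l' ^ h l b l')

theorem logD_Es (δ : Derivation κ R R) {B ϑ : ι → R} {G Q : ℕ → R} {c : ℕ → Bool → κ}
    {e : ℕ → Bool → ι → ℕ} {h : ℕ → Bool → ℕ → ℕ} (hB : ∀ j, LogD δ (B j) (ϑ j)) {l : ℕ} (b : Bool)
    (hQ : ∀ l' < l, Q l' * G l' = 1 ∨ G l' = 0) :
    δ (Es B G c e h l b) = Es B G c e h l b * ((∑ j, (e l b j : R) * ϑ j) +
      ∑ l' : Fin l, (h l b l' : R) * Q l' * δ (G l')) := by
  have h1 : LogD δ (∏ j, B j ^ e l b j) (∑ j, (e l b j : R) * ϑ j) :=
    LogD.prod _ _ _ fun j _ => (hB j).pow _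
  have h2 : LogD δ (∏ l' ∈ Finset.range l, G l' ^ h l b l')
      (∑ l' ∈ Finset.range l, (h l b l' : R) * (Q l' * δ (G l'))) :=
    LogD.prod _ _ _ fun l' hl' => (LogD.of_inv (hQ l' (Finset.mem_range.1 hl'))).pow _
  have h3 := (h1.mul h2).smul (c l b)
  rw [Finset.sum_range] at h3
  simp only [← mul_assoc] at h3
  exact h3

end Summands

section Series

variable {C : Type} [Field C]

/-- Taylor expansion at `y` -/
noncomputable def tay (y : C) : Polynomial C →ₐ[C] PowerSeries C :=
  (Polynomial.coeToPowerSeries.algHom C).comp (Polynomial.taylorAlgHom y)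

theorem tay_apply (y : C) (p : Polynomial C) :
    tay y p = ((Polynomial.taylor y p : Polynomial C) : PowerSeries C) := by
  unfold tay
  rw [AlgHom.comp_apply, Polynomial.coeToPowerSeries.algHom_apply, Algebra.algebraMap_self,
    PowerSeries.map_id]
  rfl

theorem tay_const (y : C) (p : Polynomial C) :
    PowerSeries.constantCoeff (tay y p) = p.eval y := by
  rw [tay_apply, ← PowerSeries.coeff_zero_eq_constantCoeff_apply, Polynomial.coeff_coe,
    Polynomial.taylor_coeff_zero]

theorem tay_inj (y : C) {p : Polynomial C} (h : tay y p = 0) : p = 0 := by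
  rw [tay_apply] at h
  have h1 : (Polynomial.taylor y p : Polynomial C) = 0 :=
    Polynomial.coe_injective C (by rw [h, Polynomial.coe_zero])
  exact Polynomial.taylor_injective y (by rw [h1, map_zero])

theorem tay_X (y : C) : tay y Polynomial.X = PowerSeries.X + PowerSeries.C y := by
  rw [tay_apply, Polynomial.taylor_X, Polynomial.coe_add, Polynomial.coe_X, Polynomial.coe_C]

/-- the derivation `X d/dX` -/
noncomputable def dX (y : C) : Derivation C (PowerSeries C) (PowerSeries C) :=
  (PowerSeries.X + PowerSeries.C y : PowerSeries C) • PowerSeries.derivative C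

theorem dX_apply (y : C) (f : PowerSeries C) :
    dX y f = (PowerSeries.X + PowerSeries.C y) * PowerSeries.derivative C f := rfl

theorem dX_C (y a : C) : dX y (PowerSeries.C a) = 0 := by
  rw [dX_apply, PowerSeries.derivative_C, mul_zero]

/-- A series all of whose derivatives have vanishing constant term. -/
theorem coeff_step [CharZero C] {y : C} (hy : y ≠ 0) {f : PowerSeries C} {n : ℕ}
    (h1 : PowerSeries.coeff n f = 0) (h2 : PowerSeries.coeff n (dX y f) = 0) :
    PowerSeries.coeff (n + 1) f = 0 := by
  rw [dX_apply, add_mul, map_add, PowerSeries.coeff_C_mul, PowerSeries.coeff_derivative] at h2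
  have h3 : PowerSeries.coeff n (PowerSeries.X * PowerSeries.derivative C f) = 0 := by
    cases n with
    | zero => simp
    | succ n =>
      rw [PowerSeries.coeff_succ_X_mul, PowerSeries.coeff_derivative, h1, zero_mul]
  rw [h3, zero_add] at h2
  have h4 : ((n : C) + 1) ≠ 0 := Nat.cast_add_one_ne_zero n
  rcases mul_eq_zero.1 h2 with h5 | h5
  · exact absurd h5 hy
  · exact (mul_eq_zero.1 h5).resolve_right h4

variable {σ : Type} [Fintype σ]

theorem chain_series (y : C) (x : σ → PowerSeries C) (f : MvPolynomial σ C) :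
    dX y (aeval x f) = ∑ i, aeval x (pderiv i f) * dX y (x i) := by
  classical
  induction f using MvPolynomial.induction_on with
  | C a => simp [dX_C]
  | add p q hp hq =>
    rw [map_add, map_add, hp, hq, ← Finset.sum_add_distrib]
    refine Finset.sum_congr rfl fun i _ => ?_
    rw [map_add, map_add, add_mul]
  | mul_X p j hp =>
    have e1 : aeval x (p * X j) = aeval x p * x j := by rw [map_mul, aeval_X]
    rw [e1, Derivation.leibniz, hp]
    have h1 : ∀ i, aeval x (pderiv i (p * X j)) * dX y (x i) =
        x j * (aeval x (pderiv i p) * dX y (x i)) + if i = j then aeval x p * dX y (x j) else 0 := by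
      intro i
      rw [Derivation.leibniz, map_add, smul_eq_mul, smul_eq_mul, map_mul, map_mul, aeval_X,
        pderiv_X]
      by_cases h : i = j
      · subst h
        simp
        ring
      · simp [h, Ne.symm h]
        ring
    simp only [h1]
    rw [Finset.sum_add_distrib, ← Finset.mul_sum, Finset.sum_ite_eq' Finset.univ j]
    simp only [Finset.mem_univ, if_true, smul_eq_mul]
    ring

/-- An ideal which is stable along a curve and vanishes at one point vanishes on the curve. -/
theorem ideal_curve [CharZero C] {y : C} (hy : y ≠ 0) {VA : σ → MvPolynomial σ C}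
    {xt : σ → PowerSeries C} (hxt : ∀ i, dX y (xt i) = aeval xt (VA i)) {x : σ → C}
    (hx : ∀ i, PowerSeries.constantCoeff (xt i) = x i) {I : Ideal (MvPolynomial σ C)}
    (hI : ∀ f ∈ I, DA VA f ∈ I) (h0 : ∀ f ∈ I, eval x f = 0) :
    ∀ f ∈ I, aeval xt f = 0 := by
  have h1 : ∀ f, dX y (aeval xt f) = aeval xt (DA VA f) := by
    intro f
    rw [chain_series]
    unfold DA
    rw [map_sum]
    refine Finset.sum_congr rfl fun i _ => ?_
    rw [map_mul, hxt]
  have h2 : ∀ f, PowerSeries.constantCoeff (aeval xt f) = eval x f := by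
    intro f
    have h3 : (PowerSeries.constantCoeff (R := C)).comp (aeval xt : MvPolynomial σ C →ₐ[C] _).toRingHom
        = eval x := by
      apply MvPolynomial.ringHom_ext
      · intro a
        simp
      · intro i
        simp [hx]
    exact RingHom.congr_fun h3 f
  have key : ∀ n, ∀ f ∈ I, PowerSeries.coeff n (aeval xt f) = 0 := by
    intro n
    induction n with
    | zero =>
      intro f hf
      rw [PowerSeries.coeff_zero_eq_constantCoeff_apply, h2, h0 f hf]
    | succ n ih =>
      intro f hf
      refine coeff_step hy (ih f hf) ?_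
      rw [h1]
      exact ih _ (hI f hf)
  intro f hf
  ext n
  rw [key n f hf, map_zero]

end Series

end Pool.Agent.Zk44.XO
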