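import Mathlib
import Pool.Agent.Zk44.XO.Points

/-!
# The bad numbers are points of the universal computation
-/

set_option autoImplicit false

namespace Pool.Agent.Zk44.XO

open MvPolynomial
open Pool.Agent.R351
open Pool.Agent.Zk44.GE (ExpLike)
open Pool.Agent.Zk44.GE.Ode (ev)

section Maps

theorem Es_map {κ κ' R R' ι : Type*} [Field κ] [CommRing R] [Algebra κ R] [Field κ'] [CommRing R']
    [Algebra κ' R'] [Fintype ι] (f : R →+* R') (B : ι → R) (G : ℕ → R) (c : ℕ → Bool → κ)
    (c' : ℕ → Bool → κ') (e : ℕ → Bool → ι → ℕ) (h : ℕ → Bool → ℕ → ℕ)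
    (hc : ∀ l b r, f (c l b • r) = c' l b • f r) (l : ℕ) (b : Bool) :
    f (Es B G c e h l b) = Es (fun j => f (B j)) (fun l => f (G l)) c' e h l b := by
  unfold Es
  rw [hc, map_mul, map_prod, map_prod]
  simp only [map_pow]

theorem mkPt_map {R R' : Type*} [CommRing R] [CommRing R'] (f : R →+* R') (g m : ℕ) (Y : R)
    (E : ℕ → Bool → R) (Q : ℕ → R) (a w : ℕ → Bool → R) (u : ℕ → Bool → Fin g → R)
    (h : ℕ → Bool → ℕ → R) (i : Idx g m) :
    f (mkPt g m Y E Q a w u h i) = mkPt g m (f Y) (fun l b => f (E l b)) (fun l => f (Q l))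
      (fun l b => f (a l b)) (fun l b => f (w l b)) (fun l b o => f (u l b o))
      (fun l b l' => f (h l b l')) i := by
  rcases i with _ | ⟨i, j⟩ | ⟨l, b, k | o⟩
  · rfl
  · simp only [mkPt]
    split_ifs <;> rfl
  · simp only [mkPt]
    split_ifs <;> rfl
  · rfl

end Maps

/-- the polynomial which vanishes at the points of the bad numbers -/
noncomputable def G₀ (C : Type) [Field C] (g m : ℕ) : MvPolynomial (Idx g (m + 1)) C :=
  ∑ b : Bool, tE X m b

theorem map_G₀ {C R : Type} [Field C] [CommRing R] {g m : ℕ}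
    (f : MvPolynomial (Idx g (m + 1)) C →+* R) :
    f (G₀ C g m) = ∑ b : Bool, tE (fun i => f (X i)) m b := by
  unfold G₀
  rw [map_sum]
  exact Finset.sum_congr rfl fun b _ => tE_map f X m b

theorem bad_point {κ C : Type} [Field κ] [Field C] [CharZero C] [Algebra κ C]
    {Δ : Derivation κ C C} {hh g m : ℕ} {u : Fin hh → C} (hu : ExpLike Δ u) {t : Fin g → C} {y : C}
    (hy : y ≠ 0) {G : ℕ → Polynomial C} (hG : Cmp κ (bt1 (Fin.append u t)) (m + 1) G)
    (hmin : ∀ l < m, (G l).eval y = 0 → G l = 0) (h0 : (G m).eval y = 0) (hne : G m ≠ 0) :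
    ∃ x : Idx g (m + 1) → C, x (Sum.inl ()) = y ∧
      Pt (VAu C g (m + 1)) (VBu (m + 1) (fun o => Δ (t o) / t o)) Δ x (Δ y / y) ∧
      eval x (G₀ C g m) = 0 ∧ ∀ I : Ideal (MvPolynomial (Idx g (m + 1)) C),
        (∀ f ∈ I, DA (VAu C g (m + 1)) f ∈ I) → (∀ f ∈ I, eval x f = 0) → G₀ C g m ∉ I := by
  classical
  obtain ⟨c, e, h, hG⟩ := hG
  choose hu0 γ hγ using hu
  -- the values
  set T := Fin.append u t with hT
  set θ : Fin g → C := fun o => Δ (t o) / t o with hθ
  set s := Δ y / y with hs
  let Gv : ℕ → C := fun l => (G l).eval y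
  let Bv : Option (Fin (hh + g)) → C := fun j => (bt1 T j).eval y
  let Ev : ℕ → Bool → C := Es Bv Gv c e h
  let Qv : ℕ → C := fun l => if l < m then (Gv l)⁻¹ else 0
  let a : ℕ → Bool → C := fun l b => ((e l b none : ℕ) : C)
  let w : ℕ → Bool → C := fun l b => ∑ o : Fin hh, ((e l b (some (Fin.castAdd g o)) : ℕ) : C) *
    algebraMap κ C (γ o)
  let uu : ℕ → Bool → Fin g → C := fun l b o => ((e l b (some (Fin.natAdd hh o)) : ℕ) : C)
  let hv : ℕ → Bool → ℕ → C := fun l b l' => ((h l b l' : ℕ) : C)
  let ϑ : Option (Fin (hh + g)) → C := fun j =>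
    j.elim s (Fin.append (fun o => algebraMap κ C (γ o)) θ)
  have hGv : ∀ l < m + 1, Gv l = ∑ b : Bool, Ev l b := by
    intro l hl
    show (G l).eval y = _
    rw [hG l hl, Polynomial.eval_finset_sum]
    refine Finset.sum_congr rfl fun b _ => ?_
    have h1 := Es_map (Polynomial.evalRingHom y) (bt1 T) G c c e h (fun l b r => by
      rw [Polynomial.coe_evalRingHom, Polynomial.eval_smul]) l b
    exact h1
  have hB : ∀ j, LogD Δ (Bv j) (ϑ j) := by
    intro j
    rcases j with _ | o
    · show Δ ((bt1 T none).eval y) = (bt1 T none).eval y * s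
      have e1 : (bt1 T none).eval y = y := Polynomial.eval_X
      rw [e1, hs, mul_div_cancel₀ _ hy]
    · have e1 : ∀ o, (bt1 T (some o)).eval y = T o := fun o => Polynomial.eval_C
      show Δ ((bt1 T (some o)).eval y) = (bt1 T (some o)).eval y *
        Fin.append (fun o => algebraMap κ C (γ o)) θ o
      rw [e1]
      refine Fin.addCases (fun o => ?_) (fun o => ?_) o
      · rw [hT, Fin.append_left, Fin.append_left, hγ, mul_comm]
      · rw [hT, Fin.append_right, Fin.append_right, hθ]
        beta_reduce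
        by_cases h1 : t o = 0
        · rw [h1, map_zero, zero_mul]
        · rw [mul_div_cancel₀ _ h1]
  have hnat : ∀ n : ℕ, Δ ((n : ℕ) : C) = 0 := fun n => Derivation.map_natCast Δ n
  set x := mkPt g (m + 1) y Ev Qv a w uu hv with hx
  have hQv1 : ∀ l < m, Qv l * Gv l = 1 ∨ Gv l = 0 := by
    intro l hl
    simp only [Qv]
    rw [if_pos hl]
    by_cases h1 : Gv l = 0
    · exact Or.inr h1
    · exact Or.inl (inv_mul_cancel₀ h1)
  have hQv2 : ∀ l < m + 1, Qv l * Gv l = 1 ∨ Qv l = 0 := by
    intro l _
    by_cases hlm : l < m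
    · rcases hQv1 l hlm with h1 | h1
      · exact Or.inl h1
      · right
        simp only [Qv]
        rw [if_pos hlm, h1, inv_zero]
    · right
      simp only [Qv]
      rw [if_neg hlm]
  have hβv : ∀ l b, (∑ j, ((e l b j : ℕ) : C) * ϑ j) =
      s * a l b + (w l b + ∑ o, θ o * uu l b o) := by
    intro l b
    rw [Fintype.sum_option, Fin.sum_univ_add]
    simp only [ϑ, a, w, uu, Option.elim, Fin.append_left, Fin.append_right]
    rw [mul_comm s]
    congr 2
    exact Finset.sum_congr rfl fun o _ => mul_comm _ _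
  have hVF := VF_actual (g := g) (m := m + 1) Δ (Y := y) (s := s) (E := Ev) (Q := Qv) (G := Gv)
    (a := a) (w := w) (u := uu) (h := hv) (β := fun l b => ∑ j, ((e l b j : ℕ) : C) * ϑ j)
    (β' := fun l b => s * ta x l b + (tw x l b + ∑ o, θ o * tu x l b o))
    (by rw [hs, div_mul_cancel₀ _ hy]) (fun l b => hnat _)
    (fun l b => by
      show Δ (∑ o : Fin hh, ((e l b (some (Fin.castAdd g o)) : ℕ) : C) * algebraMap κ C (γ o)) = 0
      rw [map_sum]
      refine Finset.sum_eq_zero fun o _ => ?_
      rw [Derivation.leibniz, hnat, Derivation.map_algebraMap, smul_zero, smul_zero, add_zero])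
    (fun l b o => hnat _) (fun l b l' => hnat _) hGv
    (fun l hl b => logD_Es Δ hB b fun l' hl' => hQv1 l' (by omega)) hQv2 (fun l hl b => by
      beta_reduce
      rw [hβv, hx, ta_mk hl, tw_mk hl]
      congr 2
      refine Finset.sum_congr rfl fun o _ => ?_
      rw [tu_mk hl])
  have hev0 : eval x (G₀ C g m) = Gv m := by
    rw [map_G₀, hGv m (Nat.lt_succ_self m)]
    refine Finset.sum_congr rfl fun b _ => ?_
    have e1 : (fun i => eval x (X i : MvPolynomial (Idx g (m + 1)) C)) = x := by
      funext i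
      exact eval_X _
    rw [e1, hx, tE_mk (Nat.lt_succ_self m)]
  refine ⟨x, rfl, pt_of_VF hVF, by rw [hev0]; exact h0, fun I hI hI0 hGI => hne ?_⟩
  -- the curve
  let Gt : ℕ → PowerSeries C := fun l => tay y (G l)
  let Bt : Option (Fin (hh + g)) → PowerSeries C := fun j => tay y (bt1 T j)
  let c' : ℕ → Bool → C := fun l b => algebraMap κ C (c l b)
  let Et : ℕ → Bool → PowerSeries C := Es Bt Gt c' e h
  let Qt : ℕ → PowerSeries C := fun l => if l < m then (Gt l)⁻¹ else 0
  let ϑt : Option (Fin (hh + g)) → PowerSeries C := fun j => j.elim 1 (fun _ => 0)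
  have hGt : ∀ l < m + 1, Gt l = ∑ b : Bool, Et l b := by
    intro l hl
    show tay y (G l) = _
    rw [hG l hl, map_sum]
    refine Finset.sum_congr rfl fun b _ => ?_
    exact Es_map (tay y : Polynomial C →ₐ[C] PowerSeries C).toRingHom (bt1 T) G c c' e h
      (fun l b r => by
        show tay y (c l b • r) = c' l b • tay y r
        rw [← map_smul, IsScalarTower.algebraMap_smul]) l b
  have hBt : ∀ j, LogD (dX y) (Bt j) (ϑt j) := by
    intro j
    rcases j with _ | o
    · show dX y (tay y (bt1 T none)) = tay y (bt1 T none) * 1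
      have e1 : bt1 T none = Polynomial.X := rfl
      rw [e1, tay_X, dX_apply, map_add, PowerSeries.derivative_X, PowerSeries.derivative_C, add_zero]
    · show dX y (tay y (bt1 T (some o))) = tay y (bt1 T (some o)) * 0
      have e1 : bt1 T (some o) = Polynomial.C (T o) := rfl
      rw [e1, tay_apply, Polynomial.taylor_C, Polynomial.coe_C, dX_C, mul_zero]
  have hcon : ∀ l, PowerSeries.constantCoeff (Gt l) = Gv l := fun l => tay_const y (G l)
  have hQt1 : ∀ l < m, Qt l * Gt l = 1 ∨ Gt l = 0 := by
    intro l hl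
    simp only [Qt]
    rw [if_pos hl]
    by_cases h1 : (G l).eval y = 0
    · right
      show tay y (G l) = 0
      rw [hmin l hl h1, map_zero]
    · left
      rw [mul_comm]
      exact PowerSeries.mul_inv_cancel _ (by rw [hcon]; exact h1)
  have hQt2 : ∀ l < m + 1, Qt l * Gt l = 1 ∨ Qt l = 0 := by
    intro l _
    by_cases hlm : l < m
    · rcases hQt1 l hlm with h1 | h1
      · exact Or.inl h1
      · right
        simp only [Qt]
        rw [if_pos hlm, h1, PowerSeries.inv_eq_zero, map_zero]
    · right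
      simp only [Qt]
      rw [if_neg hlm]
  let K : C →+* PowerSeries C := PowerSeries.C
  set xt := mkPt g (m + 1) (tay y Polynomial.X) Et Qt (fun l b => K (a l b)) (fun l b => K (w l b))
    (fun l b o => K (uu l b o)) (fun l b l' => K (hv l b l')) with hxt
  have hVFt := VF_actual (g := g) (m := m + 1) (dX y) (Y := tay y Polynomial.X) (s := 1) (E := Et)
    (Q := Qt) (G := Gt) (a := fun l b => K (a l b)) (w := fun l b => K (w l b))
    (u := fun l b o => K (uu l b o)) (h := fun l b l' => K (hv l b l'))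
    (β := fun l b => ∑ j, ((e l b j : ℕ) : PowerSeries C) * ϑt j)
    (β' := ta xt)
    (by
      have := hBt none
      unfold LogD at this
      have e1 : Bt none = tay y Polynomial.X := rfl
      rw [e1] at this
      rw [this, one_mul]
      exact mul_one _)
    (fun l b => dX_C y _) (fun l b => dX_C y _) (fun l b o => dX_C y _) (fun l b l' => dX_C y _) hGt
    (fun l hl b => by
      have h1 := logD_Es (dX y) (c := c') (e := e) (h := h) hBt b
        fun l' (hl' : l' < l) => hQt1 l' (by omega)
      rw [show Et l b = Es Bt Gt c' e h l b from rfl, h1]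
      congr 2) hQt2 (fun l hl b => by
      beta_reduce
      rw [hxt, ta_mk hl, Fintype.sum_option]
      simp only [ϑt, Option.elim, mul_one, mul_zero, Finset.sum_const_zero, add_zero, K, a]
      rw [map_natCast])
  have hfX : (fun i => (aeval xt : MvPolynomial (Idx g (m + 1)) C →ₐ[C] PowerSeries C).toRingHom
      (X i)) = xt := by
    funext i
    exact aeval_X _ _
  have hxt1 : ∀ i, dX y (xt i) = aeval xt (VAu C g (m + 1) i) := by
    intro i
    have h1 := eval_VAu (aeval xt : MvPolynomial (Idx g (m + 1)) C →ₐ[C] PowerSeries C).toRingHom i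
    rw [hfX] at h1
    exact (hVFt i).trans h1.symm
  have hxt2 : ∀ i, PowerSeries.constantCoeff (xt i) = x i := by
    intro i
    rw [hxt, mkPt_map, hx]
    have e1 : PowerSeries.constantCoeff (tay y Polynomial.X) = y := by
      rw [tay_const, Polynomial.eval_X]
    have e2 : (fun l b => PowerSeries.constantCoeff (Et l b)) = Ev := by
      funext l b
      have h1 := Es_map (PowerSeries.constantCoeff (R := C)) Bt Gt c' c e h (fun l b r => by
        show PowerSeries.constantCoeff (algebraMap κ C (c l b) • r) = _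
        rw [PowerSeries.smul_eq_C_mul, map_mul, PowerSeries.constantCoeff_C, Algebra.smul_def]) l b
      rw [show Et l b = Es Bt Gt c' e h l b from rfl, h1]
      have h2 : (fun j => PowerSeries.constantCoeff (Bt j)) = Bv := by
        funext j
        exact tay_const y _
      have h3 : (fun l => PowerSeries.constantCoeff (Gt l)) = Gv := by
        funext l
        exact hcon l
      rw [h2, h3]
    have e3 : (fun l => PowerSeries.constantCoeff (Qt l)) = Qv := by
      funext l
      simp only [Qt, Qv]
      split_ifs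
      · rw [PowerSeries.constantCoeff_inv, hcon]
      · exact map_zero _
    rw [e1, e2, e3]
    congr 1
  have h5 := ideal_curve hy hxt1 hxt2 hI hI0 _ hGI
  have h6 := map_G₀ (aeval xt : MvPolynomial (Idx g (m + 1)) C →ₐ[C] PowerSeries C).toRingHom
  rw [hfX] at h6
  have h7 : Gt m = 0 := by
    rw [hGt m (Nat.lt_succ_self m), ← h5]
    refine Eq.trans ?_ h6.symm
    refine Finset.sum_congr rfl fun b _ => ?_
    rw [hxt, tE_mk (Nat.lt_succ_self m)]
  exact tay_inj y h7

end Pool.Agent.Zk44.XO
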