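import Mathlib
import Pool.Agent.Zk44.XO.Bad

/-!
# The differential equation of the bad numbers, with an explicit order
-/

set_option autoImplicit false

namespace Pool.Agent.Zk44.XO

open MvPolynomial
open Pool.Agent.R351
open Pool.Agent.Zk44.GE (ExpLike)
open Pool.Agent.Zk44.GE.Ode (ev)

/-- the number of the derivatives in the equation -/
def ord (g L : ℕ) : ℕ := L * L + L * (2 * (3 + g)) + 2

theorem card_lt_ord {g m L : ℕ} (hm : m < L) : Fintype.card (Idx g (m + 1)) < ord g L := by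
  rw [card_Idx]
  unfold ord
  have h1 : m + 1 ≤ L := hm
  have h2 : (m + 1) * (m + 1) ≤ L * L := Nat.mul_le_mul h1 h1
  have h3 : (m + 1) * (2 * (3 + g)) ≤ L * (2 * (3 + g)) := Nat.mul_le_mul_right _ h1
  omega

theorem ord_lt (g L : ℕ) : ord g L < (L + g + 3) ^ 2 := by
  unfold ord
  nlinarith [Nat.zero_le (L * g), Nat.zero_le (g * g)]

section Two

variable {κ C : Type} [Field κ] [Field C] [CharZero C] [Algebra κ C]

/-- the equations for the first bad index `m` -/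
theorem ode_index (Δ : Derivation κ C C) {g m n : ℕ} (hn : Fintype.card (Idx g (m + 1)) < n)
    (t : Fin g → C) :
    ∃ F₁ F₂ : MvPolynomial ℕ C, F₁ ≠ 0 ∧ F₂ ≠ 0 ∧ F₁ ∈ supported C {i : ℕ | i < n} ∧
      F₂ ∈ supported C {i : ℕ | i < n} ∧
      ∀ (hh : ℕ) (u : Fin hh → C), ExpLike Δ u → ∀ y : C, y ≠ 0 → ∀ G : ℕ → Polynomial C,
        Cmp κ (bt1 (Fin.append u t)) (m + 1) G → (∀ l < m, (G l).eval y = 0 → G l = 0) →
        (G m).eval y = 0 → G m ≠ 0 → ev Δ y F₁ = 0 ∧ ev Δ (Δ y / y) F₂ = 0 := by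
  set VB := VBu (m + 1) (fun o => Δ (t o) / t o) with hVB
  let R : (Idx g (m + 1) → C) → C → Prop := fun x s =>
    Pt (VAu C g (m + 1)) VB Δ x s ∧ eval x (G₀ C g m) = 0 ∧
      ∀ I : Ideal (MvPolynomial (Idx g (m + 1)) C),
        (∀ f ∈ I, DA (VAu C g (m + 1)) f ∈ I) → (∀ f ∈ I, eval x f = 0) → G₀ C g m ∉ I
  obtain ⟨F₁, h10, h11, h12⟩ := elim (VA := VAu C g (m + 1)) (VB := VB) hn Δ (G₀ C g m)
    (fun x s v => R x s ∧ v = x (Sum.inl ())) (fun x s v h => h.1.1)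
    (fun f => ⟨0, X (Sum.inl ()), fun x s v h _ => by rw [pow_zero, one_mul, eval_X, h.2]⟩)
    (fun x s v h => h.1.2.1) (fun x s v h => h.1.2.2)
  obtain ⟨F₂, h20, h21, h22⟩ := elim (VA := VAu C g (m + 1)) (VB := VB) hn Δ (G₀ C g m)
    (fun x s v => R x s ∧ v = s) (fun x s v h => h.1.1)
    (fun f => ⟨1, -DB VB Δ f, fun x s v h hf => by
      have h1 := h.1.1.deriv f
      rw [hf, map_zero] at h1
      rw [pow_one, map_neg, h.2]
      linear_combination -h1⟩)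
    (fun x s v h => h.1.2.1) (fun x s v h => h.1.2.2)
  refine ⟨F₁, F₂, h10, h20, h11, h21, fun hh u hu y hy G hG hmin h0 hne => ?_⟩
  obtain ⟨x, hx1, hx2, hx3, hx4⟩ := bad_point hu hy hG hmin h0 hne
  exact ⟨h12 x (Δ y / y) y ⟨⟨hx2, hx3, hx4⟩, hx1.symm⟩,
    h22 x (Δ y / y) (Δ y / y) ⟨⟨hx2, hx3, hx4⟩, rfl⟩⟩

/-- **The bad numbers and the logarithmic derivatives of the bad numbers satisfy one differential
equation of explicit order.** -/
theorem ode_explicit (Δ : Derivation κ C C) {g : ℕ} (t : Fin g → C) (L : ℕ) :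
    ∃ F₁ F₂ : MvPolynomial ℕ C, F₁ ≠ 0 ∧ F₂ ≠ 0 ∧ F₁ ∈ supported C {i : ℕ | i < ord g L} ∧
      F₂ ∈ supported C {i : ℕ | i < ord g L} ∧
      (∀ y : C, (∃ (hh : ℕ) (u : Fin hh → C), ExpLike Δ u ∧ ¬ Good1 κ (Fin.append u t) L y) →
        ev Δ y F₁ = 0) ∧
      (∀ y l : C, y ≠ 0 → Δ y = l * y →
        (∃ (hh : ℕ) (u : Fin hh → C), ExpLike Δ u ∧ ¬ Good1 κ (Fin.append u t) L y) →
        ev Δ l F₂ = 0) := by
  classical
  have H := fun m : Fin L => ode_index Δ (card_lt_ord (g := g) m.2) t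
  choose F₁ F₂ h10 h20 h11 h21 h3 using H
  have main : ∀ y : C, y ≠ 0 →
      (∃ (hh : ℕ) (u : Fin hh → C), ExpLike Δ u ∧ ¬ Good1 κ (Fin.append u t) L y) →
      ∃ m : Fin L, ev Δ y (F₁ m) = 0 ∧ ev Δ (Δ y / y) (F₂ m) = 0 := by
    rintro y hy ⟨hh, u, hu, hbad⟩
    unfold Good1 at hbad
    push Not at hbad
    obtain ⟨G, hG, l, hl, hGl, hGl0⟩ := hbad
    have hex : ∃ l, l < L ∧ (G l).eval y = 0 ∧ G l ≠ 0 := ⟨l, hl, hGl, hGl0⟩
    set m := Nat.find hex with hm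
    obtain ⟨h1, h2, h4⟩ := Nat.find_spec hex
    have hmin : ∀ l' < m, (G l').eval y = 0 → G l' = 0 := by
      intro l' hl' h5
      by_contra h6
      exact Nat.find_min hex hl' ⟨lt_trans hl' h1, h5, h6⟩
    have hcmp : Cmp κ (bt1 (Fin.append u t)) (m + 1) G := by
      obtain ⟨c, e, v, hh⟩ := hG
      exact ⟨c, e, v, fun l' hl' => hh l' (by omega)⟩
    exact ⟨⟨m, h1⟩, h3 ⟨m, h1⟩ hh u hu y hy G hcmp hmin h2 h4⟩
  refine ⟨X 0 * ∏ m, F₁ m, ∏ m, F₂ m, mul_ne_zero (X_ne_zero 0)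
    (Finset.prod_ne_zero_iff.2 fun m _ => h10 m), Finset.prod_ne_zero_iff.2 fun m _ => h20 m,
    Subalgebra.mul_mem _ (X_mem_supported.2 ?_) (Subalgebra.prod_mem _ fun m _ => h11 m),
    Subalgebra.prod_mem _ fun m _ => h21 m, fun y hy => ?_, fun y l hy hl hbad => ?_⟩
  · show 0 < ord g L
    unfold ord
    omega
  · rw [map_mul, map_prod]
    by_cases hy0 : y = 0
    · have h1 : ev Δ y (X 0) = y := eval_X _
      rw [h1, hy0, zero_mul]
    · obtain ⟨m, hm, _⟩ := main y hy0 hy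
      rw [Finset.prod_eq_zero (Finset.mem_univ m) hm, mul_zero]
  · obtain ⟨m, _, hm⟩ := main y hy hbad
    have h1 : Δ y / y = l := by rw [hl, mul_div_assoc, div_self hy, mul_one]
    rw [h1] at hm
    rw [map_prod]
    exact Finset.prod_eq_zero (Finset.mem_univ m) hm

end Two

end Pool.Agent.Zk44.XO
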