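import Mathlib
import Pool.Agent.H297R2.BakerThm
import Pool.Agent.Zk44.XO.Ode
import Pool.Agent.Zk44.DT.Main

/-!
# Subspaces of explicit codimension without bad numbers
-/

set_option autoImplicit false

namespace Pool.Agent.Zk44.XO

open Module Pool.Agent.R351 Complex
open Pool.Agent.H301R2.SSE (QB)
open Pool.Agent.Zk44.GE (ap ExpLike exists_der_exp countable_QB)
open Pool.Agent.Zk44.GE.Ode (cb vj InP coord_InP ev)
open Pool.Agent.Zk44.SC (vv coord_joint psi exists_shift const_of joint_indep good1_append der_exp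
  psi_comb)
open Pool.Agent.Zk44.DT (Sep count_gen count_joint_gen exists_phi step_of_count countable_adjoin
  bad_algebraic not_finite_QB not_finite_Q infinite_QB)

/-- The number satisfies a relation with at most `L` additions with the numbers `t` and exponentials of
algebraic numbers. -/
def BadE {g : ℕ} (L : ℕ) (t : Fin g → ℂ) : Set ℂ :=
  {z : ℂ | ¬ ∀ (h : ℕ) (γ : Fin h → QB), Good1 QB (ap γ t) L z}

theorem badE_countable {g : ℕ} (L : ℕ) (t : Fin g → ℂ) : (BadE L t).Countable := by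
  have h1 : Countable QB := countable_QB
  set s : Set ℂ := Set.range t ∪ Set.range (fun γ : QB => cexp (γ : ℂ)) with hs
  have hsc : s.Countable := (Set.countable_range _).union (Set.countable_range _)
  have h2 := countable_adjoin s hsc
  refine (Algebraic.countable (Algebra.adjoin QB s) ℂ).mono ?_
  intro z hz
  unfold BadE at hz
  rw [Set.mem_setOf_eq] at hz ⊢
  push Not at hz
  obtain ⟨h, γ, hγ⟩ := hz
  refine bad_algebraic (ap γ t) s ?_ hγ
  intro o
  unfold ap
  refine Fin.addCases (fun o => ?_) (fun o => ?_) o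
  · rw [Fin.append_left]
    exact Or.inr ⟨γ o, rfl⟩
  · rw [Fin.append_right]
    exact Or.inl ⟨o, rfl⟩

/-- **The count for one number**, over all exponentials, with explicit exponent. -/
theorem count_one {g : ℕ} (L : ℕ) (t : Fin g → ℂ) (m : ℕ) (hm : 1 ≤ m) (N : ℕ) :
    ∃ c : ℕ, ∀ x : Fin N → ℂ, LinearIndependent QB x →
      ∀ (α₀ : Fin N → QB) (α : Fin m → Fin N → QB) (A : Finset QB) (B : Finset (Fin N → QB)),
      A.Nonempty → Sep α₀ α A B → (∀ b ∈ B, ∑ i, b i • x i ∈ BadE L t) →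
      B.card ≤ c * A.card ^ (ord g L) := by
  classical
  obtain ⟨Δ, hΔe, hΔ⟩ := exists_der_exp
  obtain ⟨F, _, hF0, _, hF, _, hFbad, _⟩ := ode_explicit (κ := QB) Δ t L
  obtain ⟨c₀, hc₀⟩ := count_gen (ord g L) F.totalDegree
  refine ⟨c₀ * ((N + 1) ^ 2 * (2 * m)) ^ (ord g L), fun x hx α₀ α A B hA hsep hB => ?_⟩
  have hT : 1 ≤ 2 * (m * A.card) :=
    Nat.mul_pos (by norm_num) (Nat.mul_pos hm hA.card_pos)
  have h1 := hc₀ N (2 * (m * A.card)) hT QB ℂ Δ x 0 B (fun B' hB' f =>
    (hsep.mono hB').all (fun k => coord_InP Δ hΔ x hx 0 B' k) f) F hF0 hF le_rfl (by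
    intro b hb
    have h3 : cb x 0 b = ∑ i, b i • x i := by
      unfold cb
      rw [zero_add]
    rw [h3]
    have h4 := hB b hb
    unfold BadE at h4
    rw [Set.mem_setOf_eq] at h4
    push Not at h4
    obtain ⟨h, γ, hγ⟩ := h4
    exact hFbad _ ⟨h, fun o => cexp (γ o : ℂ),
      fun o => ⟨Complex.exp_ne_zero _, γ o, hΔe (γ o)⟩, hγ⟩)
  refine h1.trans (le_of_eq ?_)
  rw [mul_assoc, ← mul_pow]
  congr 2
  ring

/-- **Over the algebraic numbers**: a subspace of explicit codimension without nonzero numbers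
which are related to the parameters and to exponentials. -/
theorem phi_QB {g : ℕ} (L : ℕ) (t : Fin g → ℂ) (m : ℕ) (hm : ord g L < m) :
    ∃ φ : ℂ →ₗ[QB] (Fin m → QB), ∀ z : ℂ, z ≠ 0 → φ z = 0 →
      ∀ (h : ℕ) (γ : Fin h → QB), Good1 QB (ap γ t) L z := by
  have hinf := infinite_QB
  obtain ⟨φ, hφ⟩ := exists_phi not_finite_QB _ (badE_countable L t) m
    (step_of_count _ m (ord g L) hm (count_one L t m (by omega)))
  refine ⟨φ, fun z hz hz0 => ?_⟩
  by_contra hcon
  exact hφ z hcon hz hz0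

/-- the space of the logarithms of algebraic numbers -/
def LOG : Submodule ℚ ℂ where
  carrier := {z | IsAlgebraic ℚ (cexp z)}
  add_mem' := by
    intro a b ha hb
    rw [Set.mem_setOf_eq] at *
    rw [Complex.exp_add]
    exact ha.mul hb
  zero_mem' := by
    rw [Set.mem_setOf_eq, Complex.exp_zero]
    exact isAlgebraic_one
  smul_mem' := by
    intro q z hz
    rw [Set.mem_setOf_eq] at *
    have h1 : (cexp (q • z)) ^ q.den = cexp z ^ q.num := by
      rw [← Complex.exp_nat_mul, ← Complex.exp_int_mul]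
      congr 1
      rw [Rat.smul_def]
      have h2 : ((q.den : ℚ) * q : ℚ) = (q.num : ℚ) := by
        rw [mul_comm]; exact Rat.mul_den_eq_num q
      have h3 : ((q.den : ℂ) * (q : ℂ)) = (q.num : ℂ) := by exact_mod_cast congrArg (Rat.cast : ℚ → ℂ) h2
      rw [← mul_assoc, h3]
    have h2 : IsAlgebraic ℚ (cexp z ^ q.num) := by
      rcases Int.eq_nat_or_neg q.num with ⟨n, hn | hn⟩
      · rw [hn, zpow_natCast]; exact hz.pow n
      · rw [hn, zpow_neg, zpow_natCast]; exact (hz.pow n).inv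
    exact (h1 ▸ h2 : IsAlgebraic ℚ ((cexp (q • z)) ^ q.den)).of_pow q.den_pos

theorem mem_LOG {z : ℂ} : z ∈ LOG ↔ IsAlgebraic ℚ (cexp z) := Iff.rfl

/-- The theorem of Baker for elements of `LOG`. -/
theorem LOG_indep {N : ℕ} {x : Fin N → ℂ} (hx : ∀ i, x i ∈ LOG) (h : LinearIndependent ℚ x) :
    LinearIndependent QB x := by
  rw [Fintype.linearIndependent_iff]
  intro g hg i
  have h1 := Pool.Agent.H297R2.baker x hx h (fun i => (g i : ℂ))
    (fun i => mem_algebraicClosure_iff.1 (g i).2) (by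
      rw [← hg]
      refine Finset.sum_congr rfl fun i _ => ?_
      rw [Algebra.smul_def]
      rfl) i
  exact Subtype.ext h1

end Pool.Agent.Zk44.XO
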