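import Mathlib
import Pool.Agent.H297R2.Density
import Pool.Agent.Zk44.XO.Phi1

/-!
# Subspaces of explicit codimension: logarithms, and numbers with their exponentials
-/

set_option autoImplicit false

namespace Pool.Agent.Zk44.XO

open Module Pool.Agent.R351 Complex
open Pool.Agent.H301R2.SSE (QB)
open Pool.Agent.Zk44.GE (ap ExpLike exists_der_exp countable_QB)
open Pool.Agent.Zk44.GE.Ode (cb vj InP coord_InP ev)
open Pool.Agent.Zk44.SC (vv coord_joint psi exists_shift const_of joint_indep good1_append der_exp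
  psi_comb)
open Pool.Agent.Zk44.DT (Sep count_gen count_joint_gen exists_phi step_of_count countable_adjoin
  bad_algebraic not_finite_QB not_finite_Q infinite_QB)

theorem not_finite_LOG : ¬ Module.Finite ℚ LOG := by
  intro h
  obtain ⟨p, hp, hinj⟩ : ∃ p : Fin (Module.finrank ℚ LOG + 1) → ℕ, (∀ i, (p i).Prime) ∧
      Function.Injective p :=
    ⟨fun i => Nat.nth Nat.Prime i, fun i => Nat.prime_nth_prime i, fun i j hij =>
      Fin.ext (Nat.nth_injective Nat.infinite_setOf_prime hij)⟩
  have h1 := Pool.Agent.H297R2.linearIndependent_log_prime p hp hinj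
  let x : Fin (Module.finrank ℚ LOG + 1) → LOG := fun i => ⟨(Real.log (p i) : ℂ), by
    rw [mem_LOG, ← Complex.ofReal_exp, Real.exp_log (by exact_mod_cast (hp i).pos)]
    exact_mod_cast isAlgebraic_algebraMap (R := ℚ) (A := ℂ) (p i : ℚ)⟩
  have hx : LinearIndependent ℚ x := by
    refine LinearIndependent.of_comp LOG.subtype ?_
    exact h1
  have := hx.fintype_card_le_finrank
  rw [Fintype.card_fin] at this
  exact Nat.not_succ_le_self _ this

/-- **Logarithms**: a subspace of explicit codimension, over the rational numbers. -/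
theorem phi_log {g : ℕ} (L : ℕ) (t : Fin g → ℂ) (m : ℕ) (hm : ord g L < m) :
    ∃ φ : ℂ →ₗ[ℚ] (Fin m → ℚ), ∀ z : ℂ, IsAlgebraic ℚ (cexp z) → z ≠ 0 → φ z = 0 →
      ∀ (h : ℕ) (γ : Fin h → QB), Good1 QB (ap γ t) L z := by
  classical
  set S : Set LOG := {z | (z : ℂ) ∈ BadE L t} with hS
  have hSc : S.Countable := by
    have h1 : S = Subtype.val ⁻¹' (BadE L t) := rfl
    rw [h1]
    exact (badE_countable L t).preimage Subtype.val_injective
  obtain ⟨φ, hφ⟩ := exists_phi not_finite_LOG S hSc m
    (step_of_count _ m (ord g L) hm (by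
      intro N
      obtain ⟨c, hc⟩ := count_one L t m (by omega) N
      refine ⟨c, fun x hx α₀ α A B hA hsep hB => ?_⟩
      let f : ℚ →+* QB := algebraMap ℚ QB
      let ι : (Fin N → ℚ) → (Fin N → QB) := fun b k => f (b k)
      have hι : Function.Injective ι := by
        intro b b' h
        funext k
        exact f.injective (congrFun h k)
      have h1 := hc (fun i => (x i : ℂ)) (LOG_indep (fun i => (x i).2)
        (hx.map' LOG.subtype (Submodule.ker_subtype _))) (fun i => f (α₀ i)) (fun j i => f (α j i))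
        (A.image f) (B.image ι) (hA.image f) (hsep.map f) (by
          intro b hb
          obtain ⟨b', hb', rfl⟩ := Finset.mem_image.1 hb
          have h2 := hB b' hb'
          rw [hS, Set.mem_setOf_eq] at h2
          have h3 : ∑ i, ι b' i • (x i : ℂ) = ((∑ i, b' i • x i : LOG) : ℂ) := by
            rw [Submodule.coe_sum]
            refine Finset.sum_congr rfl fun i _ => ?_
            rw [Submodule.coe_smul]
            show (algebraMap ℚ QB (b' i)) • (x i : ℂ) = b' i • (x i : ℂ)
            rw [IsScalarTower.algebraMap_smul]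
          rw [h3]
          exact h2)
      rw [Finset.card_image_of_injective _ hι, Finset.card_image_of_injective _ f.injective] at h1
      exact h1))
  obtain ⟨ψ, hψ⟩ := LinearMap.exists_extend φ
  refine ⟨ψ, fun z hz hz0 hz1 => ?_⟩
  by_contra hcon
  refine hφ ⟨z, hz⟩ hcon (fun h0 => hz0 (congrArg Subtype.val h0)) ?_
  rw [← hψ]
  exact hz1

/-- **The joint count** for a number and its exponential, with explicit exponent. -/
theorem count_two {g : ℕ} (L : ℕ) (t : Fin g → ℂ) (m : ℕ) (hm : 1 ≤ m) (N : ℕ) :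
    ∃ c : ℕ, ∀ x : Fin N → ℂ, LinearIndependent ℚ x →
      ∀ (α₀ : Fin N → ℚ) (α : Fin m → Fin N → ℚ) (A : Finset ℚ) (B : Finset (Fin N → ℚ)),
      A.Nonempty → Sep α₀ α A B →
      (∀ b ∈ B, ∑ i, b i • x i ∈ {z : ℂ | ¬ Good1 QB t L z ∧ ¬ Good1 QB t L (cexp z)}) →
      B.card ≤ c * A.card ^ (4 * ord g L) := by
  classical
  have hcnt : Countable QB := countable_QB
  have hunc : Uncountable ℂ := not_countable_iff.1 (fun h => not_countable_complex
    (Set.countable_univ_iff.2 h))
  obtain ⟨Δ, hΔ⟩ := exists_shift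
  have hconst := const_of hΔ
  obtain ⟨F, G, hF0, hG0, hF, hG, hFbad, hGbad⟩ := ode_explicit (κ := QB) Δ t L
  set n := ord g L with hn
  obtain ⟨c₀, hc₀⟩ := count_joint_gen n (F.totalDegree + G.totalDegree + (F.totalDegree + G.totalDegree))
  refine ⟨c₀ * ((N + 1) ^ 3 * (2 * m)) ^ (4 * n), fun x hx α₀ α A B hA hsep hB => ?_⟩
  have key : ∀ z : ℂ, ¬ Good1 QB t L z →
      ∃ (hh : ℕ) (u : Fin hh → ℂ), ExpLike (κ := QB) Δ u ∧ ¬ Good1 QB (Fin.append u t) L z := by
    intro z hz
    exact ⟨0, fun i => i.elim0, fun i => i.elim0, fun h => hz (good1_append (fun i => i.elim0) h)⟩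
  -- the points as points over `ℚ̄`
  let f : ℚ →+* QB := algebraMap ℚ QB
  let ι : (Fin N → ℚ) → (Fin N → QB) := fun b k => f (b k)
  have hι : Function.Injective ι := by
    intro b b' h
    funext k
    exact f.injective (congrFun h k)
  have hcast : ∀ q : ℚ, ((algebraMap ℚ QB q : QB) : ℂ) = (q : ℂ) := by
    intro q
    simp
  have hcb : ∀ (u : Fin N → ℂ) (z : ℂ) (b : Fin N → ℚ), cb u z (ι b) = z + ∑ k, (b k : ℂ) * u k := by
    intro u z b
    unfold cb
    refine congrArg (fun s => z + s) (Finset.sum_congr rfl fun k _ => ?_)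
    rw [Algebra.smul_def]
    have h6 : algebraMap QB ℂ (ι b k) = ((algebraMap ℚ QB (b k) : QB) : ℂ) := rfl
    rw [h6, hcast]
  have hsum : ∀ b : Fin N → ℚ, (0 : ℂ) + ∑ k, (b k : ℂ) * x k = ∑ i, b i • x i := by
    intro b
    rw [zero_add]
    exact Finset.sum_congr rfl fun k _ => (Rat.smul_def _ _).symm
  have hsep' := hsep.map f
  have hA' : 1 ≤ (A.image f).card := (hA.image f).card_pos
  have hT : 1 ≤ 2 * (m * (A.image f).card) := Nat.mul_pos (by norm_num) (Nat.mul_pos hm hA')
  have h1 := hc₀ N (2 * (m * (A.image f).card)) hT QB ℂ Δ x (fun j => psi Δ (x j)) 0 (psi Δ 0)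
    (B.image ι) (fun B' hB' ff => (hsep'.mono hB').all
      (fun k => (coord_joint Δ hconst x (fun j => psi Δ (x j))
        (fun c h1 h2 => joint_indep hΔ x hx c h1 h2) 0 (psi Δ 0) B' k)) ff)
    F G hF0 hG0 hF hG (by omega)
    (by
      intro b hb
      obtain ⟨b', hb', rfl⟩ := Finset.mem_image.1 hb
      rw [hcb, hsum]
      exact hFbad _ (key _ (hB b' hb').1))
    (by
      intro b hb
      obtain ⟨b', hb', rfl⟩ := Finset.mem_image.1 hb
      rw [hcb]
      refine hGbad (cexp (0 + ∑ k, (b' k : ℂ) * x k)) _ (Complex.exp_ne_zero _) ?_ ?_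
      · rw [der_exp, psi_comb]
      · rw [hsum]
        exact key _ (hB b' hb').2)
  rw [Finset.card_image_of_injective _ hι, Finset.card_image_of_injective _ f.injective] at h1
  refine h1.trans (le_of_eq ?_)
  rw [mul_assoc, ← mul_pow]
  congr 2
  ring

/-- **A number and its exponential**: a subspace of explicit codimension. -/
theorem phi_pair {g : ℕ} (L : ℕ) (t : Fin g → ℂ) (m : ℕ) (hm : 4 * ord g L < m) :
    ∃ φ : ℂ →ₗ[ℚ] (Fin m → ℚ), ∀ z : ℂ, z ≠ 0 → φ z = 0 →
      Good1 QB t L z ∨ Good1 QB t L (cexp z) := by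
  have hS : {z : ℂ | ¬ Good1 QB t L z ∧ ¬ Good1 QB t L (cexp z)}.Countable := by
    have h1 : Countable QB := countable_QB
    have h2 := countable_adjoin (Set.range t) (Set.countable_range _)
    refine (Algebraic.countable (Algebra.adjoin QB (Set.range t)) ℂ).mono ?_
    intro z hz
    exact bad_algebraic t (Set.range t) (fun o => Set.mem_range_self o) hz.1
  obtain ⟨φ, hφ⟩ := exists_phi not_finite_Q _ hS m
    (step_of_count _ m (4 * ord g L) hm (count_two L t m (by omega)))
  refine ⟨φ, fun z hz hz0 => ?_⟩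
  by_contra hcon
  push Not at hcon
  exact hφ z hcon hz hz0

end Pool.Agent.Zk44.XO
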