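import Mathlib
import Pool.Agent.Zk44.XO.Phi2
import Pool.Agent.Zk44.DT.Tuple

/-!
# Tuples in spaces of explicit dimension
-/

set_option autoImplicit false

namespace Pool.Agent.Zk44.XO

open Module Pool.Agent.R351 Complex
open Pool.Agent.H301R2.SSE (QB)
open Pool.Agent.Zk44.GE (ap GoodT.reindex)
open Pool.Agent.Zk44.SC (val)
open Pool.Agent.Zk44.DT (infinite_QB)

section Linear

variable {k : Type} [Field k] [Module k ℂ]

/-- the kernel of a linear map in a space -/
theorem exists_ker {c : ℕ} (V : Submodule k ℂ) (hV : Module.Finite k V)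
    (φ : ℂ →ₗ[k] (Fin c → k)) :
    ∃ V' : Submodule k ℂ, V' ≤ V ∧ (∀ v ∈ V', φ v = 0) ∧ finrank k V ≤ finrank k V' + c := by
  set f := φ.domRestrict V with hf
  refine ⟨(LinearMap.ker f).map V.subtype, Submodule.map_subtype_le _ _, ?_, ?_⟩
  · rintro _ ⟨v, hv, rfl⟩
    exact hv
  · rw [Submodule.finrank_map_subtype_eq]
    have h1 := LinearMap.finrank_range_add_finrank_ker f
    have h2 : finrank k (LinearMap.range f) ≤ c := by
      refine (Submodule.finrank_le _).trans ?_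
      rw [Module.finrank_fin_fun]
    omega

theorem exists_cons {n : ℕ} {V : Submodule k ℂ} (hV : Module.Finite k V) {v₀ : ℂ} (hv₀ : v₀ ≠ 0) :
    ∃ V' : Submodule k ℂ, V' ≤ V ∧ finrank k V ≤ finrank k V' + 1 ∧
      ∀ v : Fin n → ℂ, (∀ i, v i ∈ V') → LinearIndependent k v →
        LinearIndependent k (Fin.cons v₀ v : Fin (n + 1) → ℂ) := by
  obtain ⟨f, hf⟩ : ∃ f : Dual k ℂ, f v₀ ≠ 0 := by
    by_contra h
    push Not at h
    exact hv₀ ((Module.forall_dual_apply_eq_zero_iff k v₀).1 h)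
  obtain ⟨V', h1, h2, h3⟩ := exists_ker V hV (LinearMap.pi fun _ : Fin 1 => f)
  refine ⟨V', h1, h3, fun v hv hli => ?_⟩
  rw [linearIndependent_finCons]
  refine ⟨hli, fun hmem => hf ?_⟩
  have h4 : Submodule.span k (Set.range v) ≤ LinearMap.ker f := by
    rw [Submodule.span_le]
    rintro _ ⟨i, rfl⟩
    have h5 := congrFun (h2 _ (hv i)) 0
    exact h5
  exact h4 hmem

end Linear

theorem ord_mono (L : ℕ) {x y : ℕ} (h : x ≤ y) : ord x L ≤ ord y L := by
  unfold ord
  have h1 : L * (2 * (3 + x)) ≤ L * (2 * (3 + y)) := Nat.mul_le_mul_left _ (by omega)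
  omega

/-- The induction over the length of the tuple. -/
theorem space_ind {k : Type} [Field k] [Module k ℂ] (P : ℂ → Prop) (K : ℕ → ℕ)
    (hK : Monotone K)
    (T : (g : ℕ) → (Fin g → ℂ) → (n : ℕ) → (Fin n → ℂ) → Prop)
    (T0 : ∀ g t z, T g t 0 z)
    (step : ∀ (g : ℕ) (t : Fin g → ℂ), ∃ φ : ℂ →ₗ[k] (Fin (K g) → k),
      ∀ z : ℂ, P z → z ≠ 0 → φ z = 0 → ∃ y : ℂ, ∀ (n : ℕ) (w : Fin n → ℂ),
        T (g + 1) (Fin.cons y t) n w → T g t (n + 1) (Fin.cons z w)) :
    ∀ (n g : ℕ) (t : Fin g → ℂ) (V : Submodule k ℂ), (∀ v ∈ V, P v) →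
      K (g + n - 1) + n ≤ finrank k V → ∃ z : Fin n → ℂ, (∀ i, z i ∈ V) ∧
        LinearIndependent k z ∧ T g t n z := by
  intro n
  induction n with
  | zero =>
    intro g t V _ _
    exact ⟨fun i => i.elim0, fun i => i.elim0, linearIndependent_empty_type, T0 g t _⟩
  | succ n ih =>
    intro g t V hP hV
    have hpos : 0 < finrank k V := by omega
    have hfin : Module.Finite k V := Module.finite_of_finrank_pos hpos
    obtain ⟨φ, hφ⟩ := step g t
    obtain ⟨V₁, h1, h2, h3⟩ := exists_ker V hfin φ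
    have h4 : K g ≤ K (g + (n + 1) - 1) := hK (by omega)
    have h5 : 0 < finrank k V₁ := by omega
    have hn : Nontrivial V₁ := Module.nontrivial_of_finrank_pos h5
    obtain ⟨z, hz⟩ := exists_ne (0 : V₁)
    have hz0 : (z : ℂ) ≠ 0 := fun h => hz (Subtype.ext h)
    have hzV : (z : ℂ) ∈ V := h1 z.2
    obtain ⟨y, hy⟩ := hφ z (hP _ hzV) hz0 (h2 _ z.2)
    obtain ⟨V₂, k1, k2, k3⟩ := exists_cons (n := n) hfin hz0
    have e1 : g + 1 + n - 1 = g + (n + 1) - 1 := by omega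
    obtain ⟨w, hw1, hw2, hw3⟩ := ih (g + 1) (Fin.cons y t) V₂ (fun v hv => hP v (k1 hv)) (by
      rw [e1]
      omega)
    refine ⟨Fin.cons z w, ?_, k3 w hw1 hw2, hy n w hw3⟩
    intro i
    refine Fin.cases ?_ (fun i => ?_) i
    · rw [Fin.cons_zero]; exact hzV
    · rw [Fin.cons_succ]; exact k1 (hw1 i)

/-- no relation with the numbers `t` and with any exponentials -/
def GoodE {g n : ℕ} (L : ℕ) (t : Fin g → ℂ) (z : Fin n → ℂ) : Prop :=
  ∀ (h : ℕ) (γ : Fin h → QB), GoodT QB (ap γ t) L z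

theorem goodE_cons {g n L : ℕ} {t : Fin g → ℂ} {z : ℂ} {w : Fin n → ℂ}
    (hz : ∀ (h : ℕ) (γ : Fin h → QB), Good1 QB (ap γ t) L z)
    (hw : GoodE L (Fin.cons z t : Fin (g + 1) → ℂ) w) :
    GoodE L t (Fin.cons z w : Fin (n + 1) → ℂ) := by
  have hinf : Infinite QB := infinite_QB
  intro h γ
  have h4 : GoodT QB (Fin.cons z (ap γ t) : Fin (h + g + 1) → ℂ) L w := by
    refine GoodT.reindex (T' := ap γ (Fin.cons z t : Fin (g + 1) → ℂ))
      (Fin.cons (Fin.natAdd h 0) (fun o => Fin.addCases (fun o => Fin.castAdd (g + 1) o)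
        (fun o => Fin.natAdd h o.succ) o)) ?_ (hw h γ)
    intro o
    refine Fin.cases ?_ (fun o => ?_) o
    · simp only [Fin.cons_zero]
      unfold ap
      rw [Fin.append_right, Fin.cons_zero]
    · simp only [Fin.cons_succ]
      unfold ap
      refine Fin.addCases (fun o => ?_) (fun o => ?_) o
      · rw [Fin.addCases_left, Fin.append_left, Fin.append_left]
      · rw [Fin.addCases_right, Fin.append_right, Fin.append_right, Fin.cons_succ]
  exact goodT_cons (hz h γ) h4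

/-- **Spaces of logarithms.** -/
theorem space_log (L n g : ℕ) (t : Fin g → ℂ) (V : Submodule ℚ ℂ)
    (hV : ∀ v ∈ V, IsAlgebraic ℚ (cexp v)) (hd : (L + 2) ^ 2 + 2 * g * L + (2 * L + 1) * n ≤ finrank ℚ V) :
    ∃ z : Fin n → ℂ, (∀ i, z i ∈ V) ∧ LinearIndependent ℚ z ∧ GoodE L t z := by
  rcases n with _ | n
  · exact ⟨fun i => i.elim0, fun i => i.elim0, linearIndependent_empty_type,
      fun h γ => goodT_zero _ _⟩
  refine space_ind (fun v => IsAlgebraic ℚ (cexp v)) (fun g => ord g L + 1)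
    (fun x y h => Nat.succ_le_succ (ord_mono L h)) (fun g t n z => GoodE L t z)
    (fun g t z h γ => goodT_zero _ _) (fun g t => ?_) (n + 1) g t V hV ?_
  · obtain ⟨φ, hφ⟩ := phi_log L t _ (Nat.lt_succ_self _)
    exact ⟨φ, fun z hz hz0 hφz => ⟨z, fun n w hw => goodE_cons (hφ z hz hz0 hφz) hw⟩⟩
  · refine le_trans ?_ hd
    have e1 : g + (n + 1) - 1 = g + n := by omega
    rw [e1]
    unfold ord
    nlinarith

/-- **Spaces over the algebraic numbers.** -/
theorem space_QB (L n g : ℕ) (t : Fin g → ℂ) (V : Submodule QB ℂ)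
    (hd : (L + 2) ^ 2 + 2 * g * L + (2 * L + 1) * n ≤ finrank QB V) :
    ∃ z : Fin n → ℂ, (∀ i, z i ∈ V) ∧ LinearIndependent QB z ∧ GoodE L t z := by
  rcases n with _ | n
  · exact ⟨fun i => i.elim0, fun i => i.elim0, linearIndependent_empty_type,
      fun h γ => goodT_zero _ _⟩
  refine space_ind (fun _ => True) (fun g => ord g L + 1)
    (fun x y h => Nat.succ_le_succ (ord_mono L h)) (fun g t n z => GoodE L t z)
    (fun g t z h γ => goodT_zero _ _) (fun g t => ?_) (n + 1) g t V (fun _ _ => trivial) ?_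
  · obtain ⟨φ, hφ⟩ := phi_QB L t _ (Nat.lt_succ_self _)
    exact ⟨φ, fun z _ hz0 hφz => ⟨z, fun n w hw => goodE_cons (hφ z hz0 hφz) hw⟩⟩
  · refine le_trans ?_ hd
    have e1 : g + (n + 1) - 1 = g + n := by omega
    rw [e1]
    unfold ord
    nlinarith

/-- **Numbers with their exponentials.** -/
theorem space_pair (L n g : ℕ) (t : Fin g → ℂ) (V : Submodule ℚ ℂ)
    (hd : 4 * (L + 2) ^ 2 + 8 * g * L + (8 * L + 1) * n ≤ finrank ℚ V) :
    ∃ z : Fin n → ℂ, (∀ i, z i ∈ V) ∧ LinearIndependent ℚ z ∧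
      ∃ e : Fin n → Bool, GoodT QB t L (fun j => val (e j) (z j)) := by
  have hinf : Infinite QB := infinite_QB
  rcases n with _ | n
  · exact ⟨fun i => i.elim0, fun i => i.elim0, linearIndependent_empty_type, fun i => i.elim0,
      goodT_zero _ _⟩
  refine space_ind (fun _ => True) (fun g => 4 * ord g L + 1)
    (fun x y h => Nat.succ_le_succ (Nat.mul_le_mul_left 4 (ord_mono L h)))
    (fun g t n z => ∃ e : Fin n → Bool, GoodT QB t L (fun j => val (e j) (z j)))
    (fun g t z => ⟨fun i => i.elim0, goodT_zero _ _⟩) (fun g t => ?_) (n + 1) g t V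
    (fun _ _ => trivial) ?_
  · obtain ⟨φ, hφ⟩ := phi_pair L t _ (Nat.lt_succ_self _)
    refine ⟨φ, fun z _ hz0 hφz => ?_⟩
    obtain ⟨e₀, h3⟩ : ∃ e₀ : Bool, Good1 QB t L (val e₀ z) := by
      rcases hφ z hz0 hφz with h | h
      · exact ⟨false, h⟩
      · exact ⟨true, h⟩
    refine ⟨val e₀ z, fun n w hw => ?_⟩
    obtain ⟨e, he⟩ := hw
    refine ⟨Fin.cons e₀ e, ?_⟩
    have h4 := goodT_cons h3 he
    have h5 : (fun j => val ((Fin.cons e₀ e : Fin (n + 1) → Bool) j)
        ((Fin.cons z w : Fin (n + 1) → ℂ) j)) =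
        (Fin.cons (val e₀ z) (fun j : Fin n => val (e j) (w j)) : Fin (n + 1) → ℂ) := by
      funext j
      refine Fin.cases ?_ (fun j => ?_) j
      · rw [Fin.cons_zero, Fin.cons_zero, Fin.cons_zero]
      · rw [Fin.cons_succ, Fin.cons_succ, Fin.cons_succ]
    rw [h5]
    exact h4
  · refine le_trans ?_ hd
    have e1 : g + (n + 1) - 1 = g + n := by omega
    rw [e1]
    unfold ord
    nlinarith

end Pool.Agent.Zk44.XO
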